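import Mathlib

/-!
# Index type, codes and coins (MP_2cbf68_an, Q2)
-/

set_option autoImplicit false

open MeasureTheory Set Filter Topology
open scoped NNReal ENNReal

namespace Pool.Agent.J6H45.WB

/-- Well-founded trees: a leaf, or a node with a real `m`, a code `T` of a closed subset of the
Cantor space, and a sequence of trees. -/
inductive X : Type
  | leaf : X
  | mk (m : ℕ → Bool) (T : List Bool → Bool) (ys : ℕ → X) : X

/-- the bits of a tree -/
def bit : X → List ℕ → Option (ℕ ⊕ List Bool) → Bool
  | X.leaf, _, _ => false
  | X.mk _ _ _, [], none => true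
  | X.mk m _ _, [], some (Sum.inl n) => m n
  | X.mk _ T _, [], some (Sum.inr l) => T l
  | X.mk _ _ ys, i :: l, q => bit (ys i) l q

theorem bit_injective : ∀ x y : X, bit x = bit y → x = y := by
  intro x
  induction x with
  | leaf =>
    intro y h
    cases y with
    | leaf => rfl
    | mk m T ys =>
      have := congrFun (congrFun h []) none
      simp [bit] at this
  | mk m T ys ih =>
    intro y h
    cases y with
    | leaf =>
      have := congrFun (congrFun h []) none
      simp [bit] at this
    | mk m' T' ys' =>
      have h1 : m = m' := by
        funext n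
        exact congrFun (congrFun h []) (some (Sum.inl n))
      have h2 : T = T' := by
        funext l
        exact congrFun (congrFun h []) (some (Sum.inr l))
      have h3 : ys = ys' := by
        funext i
        apply ih i
        funext l q
        exact congrFun (congrFun h (i :: l)) q
      rw [h1, h2, h3]

/-- the code of a tree, a point of the Cantor space -/
def e (x : X) (n : ℕ) : Bool :=
  match (Encodable.decode n : Option (List ℕ × Option (ℕ ⊕ List Bool))) with
  | some q => bit x q.1 q.2
  | none => false

theorem e_injective : Function.Injective e := by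
  intro x y h
  apply bit_injective
  funext l q
  have := congrFun h (Encodable.encode (l, q))
  simpa [e] using this

theorem measurable_e (T : List Bool → Bool) (ys : ℕ → X) (n : ℕ) :
    Measurable (fun m : ℕ → Bool => e (X.mk m T ys) n) := by
  unfold e
  rcases (Encodable.decode n : Option (List ℕ × Option (ℕ ⊕ List Bool))) with _ | ⟨l, q⟩
  · exact measurable_const
  · cases l with
    | nil =>
      rcases q with _ | (k | l')
      · exact measurable_const
      · exact measurable_pi_apply k
      · exact measurable_const
    | cons i l => exact measurable_const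

/-- the initial segment of length `n` of the code of `x` -/
def pre (x : X) (n : ℕ) : List Bool := (List.range n).map (e x)

@[simp] theorem length_pre (x : X) (n : ℕ) : (pre x n).length = n := by simp [pre]

theorem pre_ne {x y : X} {i : ℕ} (h : e x i ≠ e y i) {n : ℕ} (hn : i < n) : pre x n ≠ pre y n := by
  intro h1
  apply h
  have h2 := congrArg (fun l : List Bool => l[i]?) h1
  simpa [pre, hn] using h2

theorem exists_ne {x y : X} (h : x ≠ y) : ∃ i, ∀ n, i < n → pre x n ≠ pre y n := by
  have : e x ≠ e y := fun h' => h (e_injective h')
  obtain ⟨i, hi⟩ := Function.ne_iff.1 this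
  exact ⟨i, fun n hn => pre_ne hi hn⟩

section coins

variable (S : Set (ℕ → Bool))

open Classical in
/-- the probability that the coin of `x` is `true` -/
noncomputable def p : X → ℝ≥0
  | X.leaf => 1 / 2
  | X.mk m _ _ => if m ∈ S then 1 / 4 else 1 / 2

/-- the probability that the coin of `x` is `false` -/
noncomputable def q (x : X) : ℝ≥0 := 1 - p S x

theorem p_pos (x : X) : 0 < p S x := by
  cases x with
  | leaf => simp [p]
  | mk m T ys => simp only [p]; split_ifs <;> norm_num

theorem p_le (x : X) : p S x ≤ 1 / 2 := by
  cases x with
  | leaf => simp [p]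
  | mk m T ys =>
    simp only [p]
    split_ifs
    · rw [← NNReal.coe_le_coe]; norm_num
    · exact le_rfl

theorem p_add_q (x : X) : p S x + q S x = 1 := by
  unfold q
  refine add_tsub_cancel_of_le ((p_le S x).trans ?_)
  rw [← NNReal.coe_le_coe]; norm_num

theorem q_pos (x : X) : 0 < q S x := by
  unfold q
  rw [tsub_pos_iff_lt]
  refine lt_of_le_of_lt (p_le S x) ?_
  rw [← NNReal.coe_lt_coe]; norm_num

/-- the law of the coin of `x` -/
noncomputable def coin (x : X) : Measure Bool :=
  (p S x : ℝ≥0∞) • Measure.dirac true + (q S x : ℝ≥0∞) • Measure.dirac false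

instance (x : X) : IsProbabilityMeasure (coin S x) := by
  constructor
  simp only [coin, Measure.add_apply, Measure.smul_apply, Measure.dirac_apply_of_mem (mem_univ _),
    smul_eq_mul, mul_one]
  rw [← ENNReal.coe_add, p_add_q, ENNReal.coe_one]

/-- the law of all coins -/
noncomputable def P : Measure (X → Bool) := Measure.infinitePi (coin S)

instance : IsProbabilityMeasure (P S) := by unfold P; infer_instance

open Classical in
/-- change the coin of `x` to `b` -/
noncomputable def upd (x : X) (b : Bool) (ω : X → Bool) : X → Bool := Function.update ω x b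

theorem upd_same (x : X) (b : Bool) (ω : X → Bool) : upd x b ω x = b := by
  classical
  unfold upd
  exact Function.update_self _ _ _

theorem upd_ne (x : X) (b : Bool) (ω : X → Bool) {y : X} (h : y ≠ x) : upd x b ω y = ω y := by
  classical
  unfold upd
  exact Function.update_of_ne h _ _

theorem measurable_upd (x : X) (b : Bool) : Measurable (upd x b) := by
  classical
  refine measurable_pi_iff.2 fun y => ?_
  by_cases h : y = x
  · subst h
    simp only [upd_same]
    exact measurable_const
  · simp only [upd_ne x b _ h]
    exact measurable_pi_apply y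

theorem P_pi (s : Finset X) (t : X → Set Bool) : P S (Set.pi s t) = ∏ x ∈ s, coin S x (t x) :=
  Measure.infinitePi_pi _ fun _ _ => MeasurableSet.of_discrete

theorem coin_apply (x : X) (t : Set Bool) [Decidable (true ∈ t)] [Decidable (false ∈ t)] :
    coin S x t = p S x * (if true ∈ t then 1 else 0) + q S x * (if false ∈ t then 1 else 0) := by
  simp only [coin, Measure.add_apply, Measure.smul_apply, smul_eq_mul,
    Measure.dirac_apply' _ (MeasurableSet.of_discrete (s := t)), Set.indicator_apply, Pi.one_apply]

/-- resampling one coin -/
theorem resample (x : X) : P S = (p S x : ℝ≥0∞) • (P S).map (upd x true) +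
    (q S x : ℝ≥0∞) • (P S).map (upd x false) := by
  classical
  refine (Measure.eq_infinitePi (coin S) fun s t _ => ?_).symm
  have hm : MeasurableSet (Set.pi (s : Set X) t) :=
    MeasurableSet.pi s.countable_toSet fun _ _ => MeasurableSet.of_discrete
  have key : ∀ b : Bool, P S (upd x b ⁻¹' (Set.pi (s : Set X) t)) =
      (if x ∈ s → b ∈ t x then 1 else 0) * ∏ y ∈ s.erase x, coin S y (t y) := by
    intro b
    by_cases h : x ∈ s → b ∈ t x
    · rw [if_pos h, one_mul, ← P_pi]
      congr 1
      ext ω
      simp only [mem_preimage, Set.mem_pi, Finset.mem_coe, Finset.mem_erase]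
      constructor
      · intro h1 y hy
        have := h1 y hy.2
        rwa [upd_ne x b ω hy.1] at this
      · intro h1 y hy
        by_cases hyx : y = x
        · subst hyx
          rw [upd_same]
          exact h hy
        · rw [upd_ne x b ω hyx]
          exact h1 y ⟨hyx, hy⟩
    · rw [if_neg h, zero_mul]
      push Not at h
      convert measure_empty (μ := P S)
      rw [Set.eq_empty_iff_forall_notMem]
      intro ω hω
      have := hω x h.1
      rw [upd_same] at this
      exact h.2 this
  simp only [Measure.add_apply, Measure.smul_apply, smul_eq_mul,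
    Measure.map_apply (measurable_upd _ _) hm, key]
  by_cases hx : x ∈ s
  · rw [← Finset.mul_prod_erase s _ hx, coin_apply]
    simp only [hx, true_implies]
    ring
  · simp only [hx, false_implies, if_true, one_mul]
    rw [← add_mul, ← ENNReal.coe_add, p_add_q, ENNReal.coe_one, one_mul,
      Finset.erase_eq_of_notMem hx]

theorem lintegral_resample (x : X) {f : (X → Bool) → ℝ≥0∞} (hf : Measurable f) :
    ∫⁻ ω, f ω ∂(P S) = p S x * ∫⁻ ω, f (upd x true ω) ∂(P S) +
      q S x * ∫⁻ ω, f (upd x false ω) ∂(P S) := by
  conv_lhs => rw [resample S x]
  rw [lintegral_add_measure, lintegral_smul_measure, lintegral_smul_measure,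
    lintegral_map hf (measurable_upd _ _), lintegral_map hf (measurable_upd _ _)]
  rfl

theorem measure_resample (x : X) {A : Set (X → Bool)} (hA : MeasurableSet A) :
    P S A = p S x * P S (upd x true ⁻¹' A) + q S x * P S (upd x false ⁻¹' A) := by
  conv_lhs => rw [resample S x]
  simp only [Measure.add_apply, Measure.smul_apply, smul_eq_mul,
    Measure.map_apply (measurable_upd _ _) hA]

/-- killing one coin preserves null sets -/
theorem null_upd (x : X) {A : Set (X → Bool)} (hA : MeasurableSet A) (h : P S A = 0) :
    P S (upd x false ⁻¹' A) = 0 := by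
  rw [measure_resample S x hA] at h
  have h1 := (add_eq_zero.1 h).2
  rcases mul_eq_zero.1 h1 with h2 | h2
  · exact absurd (ENNReal.coe_eq_zero.1 h2) (q_pos S x).ne'
  · exact h2

/-- if `f` does not depend on the coin of `x`, then this coin is independent of `f` -/
theorem lintegral_coin (x : X) {f : (X → Bool) → ℝ≥0∞} (hf : Measurable f)
    (h : ∀ ω b, f (upd x b ω) = f ω) :
    ∫⁻ ω, (if ω x = true then f ω else 0) ∂(P S) = p S x * ∫⁻ ω, f ω ∂(P S) := by
  have hm : Measurable fun ω : X → Bool => if ω x = true then f ω else 0 :=
    Measurable.ite (measurableSet_eq_fun (measurable_pi_apply x) measurable_const) hf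
      measurable_const
  rw [lintegral_resample S x hm]
  simp only [upd_same, h, if_true, Bool.false_eq_true, if_false, lintegral_zero, mul_zero, add_zero]

end coins

end Pool.Agent.J6H45.WB
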