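import Pool.Agent.J6H45.WB.A

/-!
# The compact sets of modifications
-/

set_option autoImplicit false

open MeasureTheory Set Filter Topology
open scoped NNReal ENNReal

namespace Pool.Agent.J6H45.WB

/-- union of two sets of sites -/
def vor (V W : X → Bool) : X → Bool := fun x => V x || W x

/-- the empty set of sites -/
def zeroV : X → Bool := fun _ => false

/-- the empty set or the set of the sites whose code starts with the given list -/
def nd : Option (List Bool) → X → Bool
  | none => zeroV
  | some l => fun x => decide (pre x l.length = l)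

/-- finite unions of such sets -/
def ns : List (Option (List Bool)) → X → Bool
  | [] => zeroV
  | o :: s => vor (nd o) (ns s)

open Classical in
/-- one site -/
noncomputable def single (x : X) : X → Bool := fun y => decide (y = x)

open Classical in
/-- a finite set of sites -/
noncomputable def fin (F : Finset X) : X → Bool := fun y => decide (y ∈ F)

/-- basic sets -/
def V1 : Set (X → Bool) := range nd ∪ range single

/-- unions of `k` basic sets -/
def VV : ℕ → Set (X → Bool)
  | 0 => {zeroV}
  | k + 1 => image2 vor V1 (VV k)

theorem continuous_vor : Continuous fun q : (X → Bool) × (X → Bool) => vor q.1 q.2 := by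
  refine continuous_pi fun x => ?_
  have h : Continuous fun q : Bool × Bool => q.1 || q.2 := continuous_of_discreteTopology
  have h2 : Continuous fun q : (X → Bool) × (X → Bool) => (q.1 x, q.2 x) :=
    ((continuous_apply x).comp continuous_fst).prodMk ((continuous_apply x).comp continuous_snd)
  exact h.comp h2

theorem isClosed_V1 : IsClosed V1 := by
  classical
  rw [← closure_subset_iff_isClosed]
  intro V hV
  by_contra hcon
  -- two elements
  have h2 : ∃ x y, x ≠ y ∧ V x = true ∧ V y = true := by
    by_contra h
    push Not at h
    apply hcon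
    by_cases h0 : ∃ x, V x = true
    · obtain ⟨x, hx⟩ := h0
      refine Or.inr ⟨x, ?_⟩
      funext y
      by_cases hy : y = x
      · subst hy; simp [single, hx]
      · have := h x y (Ne.symm hy) hx
        simp only [single, hy, decide_false]
        exact (Bool.eq_false_iff.2 this).symm
    · push Not at h0
      refine Or.inl ⟨none, ?_⟩
      funext y
      exact (Bool.eq_false_iff.2 (h0 y)).symm
  obtain ⟨x, y, hxy, hx, hy⟩ := h2
  obtain ⟨i, hi⟩ := exists_ne hxy
  have hO : IsOpen {W : X → Bool | W x = true ∧ W y = true} := by
    have h3 : IsOpen ((fun W : X → Bool => W x) ⁻¹' {true}) :=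
      (isOpen_discrete _).preimage (continuous_apply x)
    have h4 : IsOpen ((fun W : X → Bool => W y) ⁻¹' {true}) :=
      (isOpen_discrete _).preimage (continuous_apply y)
    exact h3.inter h4
  have hV' : V ∈ closure ({W : X → Bool | W x = true ∧ W y = true} ∩ V1) :=
    hO.inter_closure ⟨⟨hx, hy⟩, hV⟩
  have hfin : ({W : X → Bool | W x = true ∧ W y = true} ∩ V1).Finite := by
    refine ((Finset.range (i + 1)).finite_toSet.image fun n => nd (some (pre x n))).subset ?_
    rintro W ⟨⟨h5, h6⟩, (⟨o, rfl⟩ | ⟨z, rfl⟩)⟩
    · rcases o with _ | l
      · simp [nd, zeroV] at h5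
      · simp only [nd, decide_eq_true_eq] at h5 h6
        refine ⟨l.length, ?_, ?_⟩
        · simp only [Finset.coe_range, mem_Iio]
          by_contra hcon2
          exact hi l.length (by omega) (h5.trans h6.symm)
        · simp only [h5]
    · simp only [single, decide_eq_true_eq] at h5 h6
      exact absurd (h5.trans h6.symm) hxy
  rw [hfin.isClosed.closure_eq] at hV'
  exact hcon hV'.2

theorem isCompact_V1 : IsCompact V1 := isClosed_V1.isCompact

theorem isCompact_VV (k : ℕ) : IsCompact (VV k) := by
  induction k with
  | zero => exact isCompact_singleton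
  | succ k ih =>
    have := (isCompact_V1.prod ih).image continuous_vor
    rwa [image_prod] at this

theorem nd_mem (o : Option (List Bool)) : nd o ∈ V1 := Or.inl ⟨o, rfl⟩

theorem single_mem (x : X) : single x ∈ V1 := Or.inr ⟨x, rfl⟩

theorem ns_mem (s : List (Option (List Bool))) : ns s ∈ VV s.length := by
  induction s with
  | nil => exact rfl
  | cons o s ih => exact ⟨nd o, nd_mem o, ns s, ih, rfl⟩

theorem single_mem_closure (x : X) : single x ∈ closure (range nd) := by
  classical
  have h : Tendsto (fun n => nd (some (pre x n))) atTop (𝓝 (single x)) := by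
    rw [tendsto_pi_nhds]
    intro y
    by_cases hy : y = x
    · subst hy
      refine tendsto_const_nhds.congr fun n => ?_
      simp [single, nd]
    · obtain ⟨i, hi⟩ := exists_ne hy
      refine (tendsto_const_nhds (x := single x y)).congr' ?_
      filter_upwards [eventually_gt_atTop i] with n hn
      have := hi n hn
      simp [single, nd, hy, this]
  exact mem_closure_of_tendsto h (Eventually.of_forall fun n => ⟨_, rfl⟩)

theorem V1_subset_closure : V1 ⊆ closure (range nd) := by
  rintro V (h | ⟨x, rfl⟩)
  · exact subset_closure h
  · exact single_mem_closure x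

theorem VV_subset_closure (k : ℕ) : VV k ⊆ closure {V | ∃ s, s.length = k ∧ ns s = V} := by
  induction k with
  | zero =>
    rintro V rfl
    exact subset_closure ⟨[], rfl, rfl⟩
  | succ k ih =>
    rintro V ⟨V', hV', W, hW, rfl⟩
    refine map_mem_closure₂ continuous_vor (V1_subset_closure hV') (ih hW) ?_
    rintro _ ⟨o, rfl⟩ _ ⟨s, hs, rfl⟩
    exact ⟨o :: s, by simp [hs], rfl⟩

theorem VV_decomp (k : ℕ) : ∀ V ∈ VV k, ∃ s, ∃ F : Finset X, V = vor (ns s) (fin F) := by
  classical
  induction k with
  | zero =>
    rintro V rfl
    refine ⟨[], ∅, ?_⟩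
    funext x
    simp [vor, ns, zeroV, fin]
  | succ k ih =>
    rintro V ⟨V', hV', W, hW, rfl⟩
    obtain ⟨s, F, rfl⟩ := ih W hW
    rcases hV' with ⟨o, rfl⟩ | ⟨x, rfl⟩
    · refine ⟨o :: s, F, ?_⟩
      funext y
      simp [vor, ns, Bool.or_assoc]
    · refine ⟨s, insert x F, ?_⟩
      funext y
      simp only [vor, single, fin, Finset.mem_insert, Bool.decide_or]
      rw [← Bool.or_assoc, ← Bool.or_assoc, Bool.or_comm (decide (y = x))]

theorem vor_fin_mem (s : List (Option (List Bool))) (F : Finset X) :
    ∃ k, vor (ns s) (fin F) ∈ VV k := by
  classical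
  induction F using Finset.induction_on with
  | empty =>
    refine ⟨s.length, ?_⟩
    convert ns_mem s using 1
    funext x
    simp [vor, fin]
  | insert x F hx ih =>
    obtain ⟨k, hk⟩ := ih
    refine ⟨k + 1, single x, single_mem x, _, hk, ?_⟩
    funext y
    simp only [vor, single, fin, Finset.mem_insert, Bool.decide_or]
    rw [← Bool.or_assoc, ← Bool.or_assoc, Bool.or_comm (decide (y = x))]

/-- set the coins of the sites of `V` to `false` -/
def kill (V : X → Bool) (ω : X → Bool) : X → Bool := fun x => !V x && ω x

theorem measurable_kill (V : X → Bool) : Measurable (kill V) := by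
  refine measurable_pi_iff.2 fun x => ?_
  have h : Measurable fun b : Bool => !V x && b := measurable_of_finite _
  exact h.comp (measurable_pi_apply x)

theorem kill_vor (V W : X → Bool) (ω : X → Bool) : kill (vor V W) ω = kill V (kill W ω) := by
  funext x
  simp only [kill, vor]
  cases V x <;> cases W x <;> simp

theorem kill_single (x : X) (ω : X → Bool) : kill (single x) ω = upd x false ω := by
  classical
  funext y
  by_cases h : y = x
  · subst h; simp [kill, single, upd_same]
  · simp [kill, single, upd_ne x false ω h, h]

theorem kill_fin_empty (ω : X → Bool) : kill (fin ∅) ω = ω := by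
  classical
  funext y; simp [kill, fin]

theorem kill_fin_insert [DecidableEq X] (x : X) (F : Finset X) (ω : X → Bool) :
    kill (fin (insert x F)) ω = upd x false (kill (fin F) ω) := by
  rw [← kill_single, ← kill_vor]
  congr 1
  funext y
  simp only [vor, fin, single, Finset.mem_insert, Bool.decide_or]
  congr

theorem kill_upd_true {V : X → Bool} {x : X} (h : V x = true) (b : Bool) (ω : X → Bool) :
    kill V (upd x b ω) = kill V ω := by
  funext y
  by_cases hy : y = x
  · subst hy; simp [kill, h]
  · simp [kill, upd_ne x b ω hy]

theorem kill_upd_false {V : X → Bool} {x : X} (h : V x = false) (b : Bool) (ω : X → Bool) :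
    kill V (upd x b ω) = upd x b (kill V ω) := by
  funext y
  by_cases hy : y = x
  · subst hy; simp [kill, h, upd_same]
  · simp [kill, upd_ne x b _ hy]

theorem null_kill_fin (S : Set (ℕ → Bool)) (F : Finset X) {A : Set (X → Bool)}
    (hA : MeasurableSet A) (h : P S A = 0) : P S (kill (fin F) ⁻¹' A) = 0 := by
  classical
  induction F using Finset.induction_on generalizing A with
  | empty =>
    convert h using 2
    ext ω
    simp [kill_fin_empty]
  | insert x F hx ih =>
    have h1 := ih (A := upd x false ⁻¹' A) (measurable_upd x false hA) (null_upd S x hA h)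
    convert h1 using 2
    ext ω
    simp [kill_fin_insert]

end Pool.Agent.J6H45.WB
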