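import Pool.Agent.J6H45.WB.B

/-!
# The random family `Z`
-/

set_option autoImplicit false

open MeasureTheory Set Filter Topology
open scoped NNReal ENNReal

namespace Pool.Agent.J6H45.WB

/-- initial segment of length `j` -/
def seg (y : ℕ → Bool) (j : ℕ) : List Bool := (List.range j).map y

@[simp] theorem length_seg (y : ℕ → Bool) (j : ℕ) : (seg y j).length = j := by simp [seg]

theorem seg_eq_iff (y y' : ℕ → Bool) (j : ℕ) : seg y j = seg y' j ↔ ∀ i < j, y i = y' i := by
  simp [seg, List.map_inj_left]

theorem take_seg (y : ℕ → Bool) {i j : ℕ} (h : i ≤ j) : (seg y j).take i = seg y i := by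
  simp [seg, ← List.map_take, List.take_range, min_eq_left h]

/-- `y` is in the closed set coded by `T` -/
def inT (T : List Bool → Bool) (y : ℕ → Bool) : Prop := ∀ j, T (seg y j) = true

variable {Ω : Type} [MeasurableSpace Ω]

theorem measurable_seg {F : ℕ → Ω → Bool} (hF : ∀ i, Measurable (F i)) (j : ℕ)
    (A : Set (List Bool)) : MeasurableSet {ω | seg (fun i => F i ω) j ∈ A} := by
  have h1 : Measurable fun ω => (fun i : Fin j => F i ω) := measurable_pi_iff.2 fun i => hF i
  have h2 : {ω | seg (fun i => F i ω) j ∈ A} =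
      (fun ω => (fun i : Fin j => F i ω)) ⁻¹' {u | List.ofFn u ∈ A} := by
    ext ω
    have : seg (fun i => F i ω) j = List.ofFn (fun i : Fin j => F i ω) := by
      apply List.ext_getElem
      · simp
      · intro i h1 h2
        simp [seg]
    simp [this]
  rw [h2]
  exact h1 MeasurableSet.of_discrete

theorem measurableSet_inT {F : ℕ → Ω → Bool} (hF : ∀ i, Measurable (F i)) (T : List Bool → Bool) :
    MeasurableSet {ω | inT T (fun i => F i ω)} := by
  have : {ω | inT T (fun i => F i ω)} = ⋂ j, {ω | seg (fun i => F i ω) j ∈ {l | T l = true}} := by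
    ext ω
    simp [inT]
  rw [this]
  exact MeasurableSet.iInter fun j => measurable_seg hF j _

variable (S : Set (ℕ → Bool))

/-- the probability of the event coded by `T` depends continuously on the modification -/
def Good (T : List Bool → Bool) (F : ℕ → (X → Bool) → Bool) : Prop :=
  ∀ k, ContinuousOn (fun V : X → Bool => (P S).real {ω | inT T (fun i => F i (kill V ω))}) (VV k)

open Classical in
/-- the random family -/
noncomputable def Z : X → (X → Bool) → Bool
  | X.leaf => fun _ => false
  | X.mk m T ys => fun ω => decide (ω (X.mk m T ys) = true ∧ Good S T (fun i => Z (ys i)) ∧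
      inT T (fun i => Z (ys i) ω))

theorem Z_mk (m : ℕ → Bool) (T : List Bool → Bool) (ys : ℕ → X) (ω : X → Bool) :
    Z S (X.mk m T ys) ω = true ↔ ω (X.mk m T ys) = true ∧ Good S T (fun i => Z S (ys i)) ∧
      inT T (fun i => Z S (ys i) ω) := by
  simp [Z]

theorem measurable_Z (x : X) : Measurable (Z S x) := by
  induction x with
  | leaf => exact measurable_const
  | mk m T ys ih =>
    apply measurable_to_bool
    have : Z S (X.mk m T ys) ⁻¹' {true} = {ω | ω (X.mk m T ys) = true} ∩
        ({_ω | Good S T (fun i => Z S (ys i))} ∩ {ω | inT T (fun i => Z S (ys i) ω)}) := by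
      ext ω
      simp only [mem_preimage, mem_singleton_iff, Z_mk, mem_inter_iff, mem_ofPred_eq]
    rw [this]
    refine MeasurableSet.inter ?_ (MeasurableSet.inter (MeasurableSet.const _)
      (measurableSet_inT ih T))
    exact measurableSet_eq_fun (measurable_pi_apply _) measurable_const

/-- the sites on which `Z x` depends -/
def sites : X → Set X
  | X.leaf => ∅
  | X.mk m T ys => insert (X.mk m T ys) (⋃ i, sites (ys i))

theorem countable_sites (x : X) : (sites x).Countable := by
  induction x with
  | leaf => exact countable_empty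
  | mk m T ys ih => exact (countable_iUnion ih).insert _

theorem Z_upd (x y : X) (b : Bool) (h : y ∉ sites x) (ω : X → Bool) :
    Z S x (upd y b ω) = Z S x ω := by
  induction x with
  | leaf => rfl
  | mk m T ys ih =>
    simp only [sites, mem_insert_iff, mem_iUnion, not_or, not_exists] at h
    rw [Bool.eq_iff_iff, Z_mk, Z_mk, upd_ne y b ω (Ne.symm h.1)]
    simp only [fun i => ih i (h.2 i)]

/-- no tree is a site of one of its branches -/
theorem mk_notMem_sites (m : ℕ → Bool) (T : List Bool → Bool) (ys : ℕ → X) (i : ℕ) :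
    X.mk m T ys ∉ sites (ys i) := by
  -- the set of sites is transitive
  have trans : ∀ x y : X, y ∈ sites x → sites y ⊆ sites x := by
    intro x
    induction x with
    | leaf => intro y hy; exact absurd hy (by simp [sites])
    | mk m T ys ih =>
      intro y hy
      rcases hy with rfl | hy
      · exact subset_rfl
      · obtain ⟨i, hi⟩ := mem_iUnion.1 hy
        exact ((ih i y hi).trans (subset_iUnion (fun i => sites (ys i)) i)).trans (subset_insert _ _)
  -- well-foundedness
  have wf : ∀ x : X, ∀ (m : ℕ → Bool) (T : List Bool → Bool) (ys : ℕ → X) (i : ℕ),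
      ys i = x → X.mk m T ys ∉ sites x := by
    intro x
    induction x with
    | leaf => intro m T ys i h; simp [sites]
    | mk m' T' ys' ih =>
      intro m T ys i h hmem
      rcases hmem with heq | hmem
      · -- `ys = ys'`, so `ys' i = mk m' T' ys'`
        injection heq with _ _ h3
        subst h3
        have h4 := ih i m' T' ys i rfl
        rw [h] at h4
        exact h4 (Or.inl rfl)
      · obtain ⟨j, hj⟩ := mem_iUnion.1 hmem
        -- `mk m T ys ∈ sites (ys' j)`; then `ys i = mk m' T' ys' ∈ sites (ys' j)`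
        have h5 := trans _ _ hj
        have h6 : X.mk m' T' ys' ∈ sites (ys' j) := by
          apply h5
          refine Or.inr (mem_iUnion.2 ⟨i, ?_⟩)
          rw [h]
          exact Or.inl rfl
        exact ih j m' T' ys' j rfl h6
  exact wf (ys i) m T ys i rfl

/-- continuity in probability along the modifications -/
def Cv (F : (X → Bool) → Bool) : Prop :=
  ∀ k, ∀ V0 ∈ VV k, Tendsto (fun V => (P S).real {ω | F (kill V ω) ≠ F (kill V0 ω)})
    (𝓝[VV k] V0) (𝓝 0)

variable {S}

theorem tendsto_seg {F : ℕ → (X → Bool) → Bool} (hF : ∀ i, Cv S (F i)) (J k : ℕ) {V0 : X → Bool}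
    (hV0 : V0 ∈ VV k) :
    Tendsto (fun V => (P S).real {ω | seg (fun i => F i (kill V ω)) J ≠
      seg (fun i => F i (kill V0 ω)) J}) (𝓝[VV k] V0) (𝓝 0) := by
  have h1 : Tendsto (fun V => ∑ i ∈ Finset.range J,
      (P S).real {ω | F i (kill V ω) ≠ F i (kill V0 ω)}) (𝓝[VV k] V0) (𝓝 0) := by
    have := tendsto_finsetSum (Finset.range J) (fun i _ => hF i k V0 hV0)
    simpa using this
  refine squeeze_zero (fun V => measureReal_nonneg) (fun V => ?_) h1
  refine le_trans (measureReal_mono ?_ (measure_ne_top _ _)) (measureReal_biUnion_finset_le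
    (Finset.range J) fun i => {ω | F i (kill V ω) ≠ F i (kill V0 ω)})
  intro ω hω
  simp only [mem_ofPred_eq, ne_eq, seg_eq_iff, not_forall] at hω
  obtain ⟨i, hi, h⟩ := hω
  simp only [mem_iUnion, Finset.mem_range]
  exact ⟨i, hi, h⟩

theorem tendsto_inT {F : ℕ → (X → Bool) → Bool} (hF : ∀ i, Cv S (F i))
    (hm : ∀ i, Measurable (F i)) {T : List Bool → Bool}
    (hT : Good S T F) (k : ℕ) {V0 : X → Bool} (hV0 : V0 ∈ VV k) :
    Tendsto (fun V => (P S).real {ω | ¬ (inT T (fun i => F i (kill V ω)) ↔
      inT T (fun i => F i (kill V0 ω)))}) (𝓝[VV k] V0) (𝓝 0) := by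
  set A : (X → Bool) → Set (X → Bool) := fun V => {ω | inT T (fun i => F i (kill V ω))} with hA
  have hAm : ∀ V, MeasurableSet (A V) := fun V =>
    measurableSet_inT (F := fun i ω => F i (kill V ω)) (fun i => (hm i).comp (measurable_kill V)) T
  set B : ℕ → Set (X → Bool) := fun J => {ω | ∀ j ≤ J, T (seg (fun i => F i (kill V0 ω)) j) = true}
    with hB
  have hBm : ∀ J, MeasurableSet (B J) := by
    intro J
    have : B J = ⋂ j ∈ Finset.range (J + 1), {ω | seg (fun i => F i (kill V0 ω)) j ∈
        {l | T l = true}} := by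
      ext ω
      simp only [hB, mem_ofPred_eq, Finset.mem_range, mem_iInter, Nat.lt_succ_iff]
    rw [this]
    exact MeasurableSet.biInter (Finset.range (J + 1)).countable_toSet fun j _ =>
      measurable_seg (F := fun i ω => F i (kill V0 ω)) (fun i => (hm i).comp (measurable_kill V0)) j _
  have hBA : A V0 = ⋂ J, B J := by
    ext ω
    simp only [hA, hB, mem_ofPred_eq, mem_iInter, inT]
    exact ⟨fun h J j _ => h j, fun h j => h j j le_rfl⟩
  have hanti : Antitone B := fun J J' hJ ω hω j hj => hω j (hj.trans hJ)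
  have hlimB : Tendsto (fun J => (P S).real (B J)) atTop (𝓝 ((P S).real (A V0))) := by
    rw [hBA]
    have h1 := tendsto_measure_iInter_atTop (μ := P S) (s := B)
      (fun J => (hBm J).nullMeasurableSet) hanti ⟨0, measure_ne_top _ _⟩
    exact (ENNReal.tendsto_toReal (measure_ne_top _ _)).comp h1
  rw [Metric.tendsto_nhds]
  intro ε hε
  obtain ⟨J, hJ⟩ := ((Metric.tendsto_nhds.1 hlimB) (ε / 8) (by positivity)).exists
  have h1 := (Metric.tendsto_nhds.1 (tendsto_seg hF (J + 1) k hV0)) (ε / 8) (by positivity)
  have h2 := (Metric.tendsto_nhds.1 (hT k V0 hV0)) (ε / 8) (by positivity)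
  filter_upwards [h1, h2] with V h1 h2
  rw [Real.dist_eq, sub_zero, abs_of_nonneg measureReal_nonneg] at h1 ⊢
  have h2' : |(P S).real (A V) - (P S).real (A V0)| < ε / 8 := h2
  have hJ' : |(P S).real (B J) - (P S).real (A V0)| < ε / 8 := hJ
  rw [abs_lt] at h2' hJ'
  -- `A V \ A V0`
  set D : Set (X → Bool) := {ω | seg (fun i => F i (kill V ω)) (J + 1) ≠
      seg (fun i => F i (kill V0 ω)) (J + 1)} with hD
  have h3 : A V \ A V0 ⊆ D ∪ (B J \ A V0) := by
    rintro ω ⟨hω1, hω2⟩
    by_cases hω3 : ω ∈ D
    · exact Or.inl hω3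
    · refine Or.inr ⟨?_, hω2⟩
      simp only [hD, mem_ofPred_eq, not_not] at hω3
      intro j hj
      have h4 : seg (fun i => F i (kill V0 ω)) j = seg (fun i => F i (kill V ω)) j := by
        rw [seg_eq_iff] at hω3 ⊢
        intro i hi
        exact (hω3 i (by omega)).symm
      rw [h4]
      exact hω1 j
  have hsub : A V0 ⊆ B J := by rw [hBA]; exact iInter_subset _ _
  have h5 : (P S).real (A V \ A V0) ≤ (P S).real D + ((P S).real (B J) - (P S).real (A V0)) := by
    refine (measureReal_mono h3 (measure_ne_top _ _)).trans ((measureReal_union_le _ _).trans ?_)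
    rw [measureReal_sdiff hsub (hAm V0)]
  have h6 : (P S).real (A V0 \ A V) = (P S).real (A V0) - (P S).real (A V) +
      (P S).real (A V \ A V0) := by
    have e1 := measureReal_sdiff_add_inter (μ := P S) (s := A V0) (hAm V)
    have e2 := measureReal_sdiff_add_inter (μ := P S) (s := A V) (hAm V0)
    rw [inter_comm] at e2
    linarith
  have h7 : (P S).real {ω | ¬ (inT T (fun i => F i (kill V ω)) ↔
      inT T (fun i => F i (kill V0 ω)))} ≤ (P S).real (A V \ A V0) + (P S).real (A V0 \ A V) := by
    refine le_trans (measureReal_mono ?_ (measure_ne_top _ _)) (measureReal_union_le _ _)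
    intro ω hω
    simp only [mem_ofPred_eq] at hω
    by_cases h8 : inT T (fun i => F i (kill V ω))
    · exact Or.inl ⟨h8, fun h9 => hω ⟨fun _ => h9, fun _ => h8⟩⟩
    · refine Or.inr ⟨?_, h8⟩
      by_contra h9
      exact hω ⟨fun h => absurd h h8, fun h => absurd h h9⟩
  linarith

variable (S) in
theorem Cv_Z (x : X) : Cv S (Z S x) := by
  induction x with
  | leaf =>
    intro k V0 hV0
    simp [Z, tendsto_const_nhds]
  | mk m T ys ih =>
    intro k V0 hV0
    by_cases hg : Good S T (fun i => Z S (ys i))
    · have h1 := tendsto_inT ih (fun i => measurable_Z S (ys i)) hg k hV0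
      have h2 : ∀ᶠ V in 𝓝[VV k] V0, V (X.mk m T ys) = V0 (X.mk m T ys) := by
        have : ∀ᶠ V in 𝓝 V0, V (X.mk m T ys) = V0 (X.mk m T ys) := by
          have h3 : IsOpen ((fun V : X → Bool => V (X.mk m T ys)) ⁻¹' {V0 (X.mk m T ys)}) :=
            (isOpen_discrete _).preimage (continuous_apply _)
          exact h3.mem_nhds rfl
        exact this.filter_mono nhdsWithin_le_nhds
      refine squeeze_zero' (Eventually.of_forall fun V => measureReal_nonneg) ?_ h1
      filter_upwards [h2] with V hV
      refine measureReal_mono ?_ (measure_ne_top _ _)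
      intro ω hω hcon
      apply hω
      rw [Bool.eq_iff_iff, Z_mk, Z_mk]
      have h4 : kill V ω (X.mk m T ys) = kill V0 ω (X.mk m T ys) := by simp [kill, hV]
      rw [h4, hcon]
    · have : ∀ ω, Z S (X.mk m T ys) ω = false := by
        intro ω
        rw [← Bool.not_eq_true, Z_mk]
        exact fun h => hg h.2.1
      simp [this, tendsto_const_nhds]

end Pool.Agent.J6H45.WB
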