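import Pool.Agent.J6H45.WB.C
import Pool.Agent.Helper882.Dirac.Represent

/-!
# The compact space and the total family of functionals
-/

set_option autoImplicit false

open MeasureTheory Set Filter Topology TopologicalSpace
open scoped NNReal ENNReal

namespace Pool.Agent.J6H45.WB

/-! ### separability of the weak* dual -/

section dual

variable {E : Type} [NormedAddCommGroup E] [NormedSpace ℝ E]

theorem separable_of_total {ι : Type} [Countable ι] (φ : ι → StrongDual ℝ E)
    (h : ∀ x : E, (∀ i, φ i x = 0) → x = 0) : SeparableSpace (WeakDual ℝ E) := by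
  classical
  set W : Submodule ℝ (WeakDual ℝ E) :=
    Submodule.span ℝ (range fun i => StrongDual.toWeakDual (φ i)) with hW
  have key : ∀ (ψ : WeakDual ℝ E) (I : Finset E), ∃ χ ∈ W, ∀ x ∈ I, χ x = ψ x := by
    intro ψ I
    let f : WeakDual ℝ E →ₗ[ℝ] (I → ℝ) :=
      { toFun := fun χ x => χ x.1
        map_add' := fun a b => by ext x; rfl
        map_smul' := fun c a => by ext x; rfl }
    have hmem : f ψ ∈ W.map f := by
      by_contra hne
      obtain ⟨g, hg1, hg2⟩ := Submodule.exists_le_ker_of_notMem hne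
      have hsum : ∀ y : I → ℝ, g y = ∑ i, y i * g (Pi.single i 1) := by
        intro y
        conv_lhs => rw [← Finset.univ_sum_single y]
        rw [map_sum]
        refine Finset.sum_congr rfl fun i _ => ?_
        have : (Pi.single i (y i) : I → ℝ) = y i • Pi.single i 1 := by
          ext j
          by_cases hj : j = i
          · subst hj; simp
          · simp [hj]
        rw [this, map_smul, smul_eq_mul]
      have hv : ∀ χ : WeakDual ℝ E, g (f χ) = χ (∑ i : I, g (Pi.single i 1) • i.1) := by
        intro χ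
        rw [hsum, map_sum]
        refine Finset.sum_congr rfl fun i _ => ?_
        rw [map_smul, smul_eq_mul, mul_comm]
        rfl
      have h0 : (∑ i : I, g (Pi.single i 1) • i.1 : E) = 0 := by
        apply h
        intro i
        have h1 : f (StrongDual.toWeakDual (φ i)) ∈ W.map f :=
          Submodule.mem_map_of_mem (Submodule.subset_span ⟨i, rfl⟩)
        have h2 := hg2 h1
        rw [LinearMap.mem_ker, hv] at h2
        exact h2
      apply hg1
      rw [hv, h0, map_zero]
    obtain ⟨χ, hχ, hf⟩ := hmem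
    exact ⟨χ, hχ, fun x hx => congrFun hf ⟨x, hx⟩⟩
  have hdense : closure (W : Set (WeakDual ℝ E)) = univ := by
    rw [eq_univ_iff_forall]
    intro ψ
    have hind : IsInducing fun (χ : WeakDual ℝ E) (x : E) => χ x := ⟨rfl⟩
    rw [hind.closure_eq_preimage_closure_image, mem_preimage, mem_closure_iff]
    intro O hO hψ
    obtain ⟨I, u, h1, h2⟩ := isOpen_pi_iff.1 hO _ hψ
    obtain ⟨χ, hχ, h3⟩ := key ψ I
    refine ⟨fun x => χ x, h2 ?_, χ, hχ, rfl⟩
    intro x hx
    simp only [h3 x hx]
    exact (h1 x hx).2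
  rw [← isSeparable_univ_iff, ← hdense]
  exact (countable_range _).isSeparable.span.closure

end dual

variable (S : Set (ℕ → Bool))

/-- the random point -/
noncomputable def ZZ (ω : X → Bool) : X → Bool := fun x => Z S x ω

theorem measurable_ZZ : Measurable (ZZ S) := measurable_pi_iff.2 (measurable_Z S)

/-- a finite cylinder -/
def cyl (E : Finset X) (z : X → Bool) : Set (X → Bool) := {z' | ∀ x ∈ E, z' x = z x}

theorem isOpen_cyl (E : Finset X) (z : X → Bool) : IsOpen (cyl E z) := by
  have : cyl E z = ⋂ x ∈ E, (fun z' : X → Bool => z' x) ⁻¹' {z x} := by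
    ext z'; simp [cyl]
  rw [this]
  exact isOpen_biInter_finset fun x _ => (isOpen_discrete _).preimage (continuous_apply x)

theorem mem_cyl (E : Finset X) (z : X → Bool) : z ∈ cyl E z := fun _ _ => rfl

/-- the compact space: the union of the supports of the laws of the modified random points -/
def K : Set (X → Bool) :=
  {z | ∀ E : Finset X, ∃ s : List (Option (List Bool)),
    0 < P S {ω | ZZ S (kill (ns s) ω) ∈ cyl E z}}

theorem isClosed_K : IsClosed (K S) := by
  rw [← isOpen_compl_iff, isOpen_iff_mem_nhds]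
  intro z hz
  simp only [K, mem_compl_iff, mem_ofPred_eq, not_forall] at hz
  obtain ⟨E, hE⟩ := hz
  refine mem_of_superset ((isOpen_cyl E z).mem_nhds (mem_cyl E z)) fun z' hz' hK => hE ?_
  obtain ⟨s, hs⟩ := hK E
  refine ⟨s, lt_of_lt_of_le hs (measure_mono ?_)⟩
  intro ω hω x hx
  exact (hω x hx).trans (hz' x hx)

instance : CompactSpace (K S) := isCompact_iff_compactSpace.1 (isClosed_K S).isCompact

theorem null_of_disjoint (s : List (Option (List Bool))) {Q : Set (X → Bool)} (hQ : IsCompact Q)
    (hd : ∀ z ∈ Q, z ∉ K S) : P S {ω | ZZ S (kill (ns s) ω) ∈ Q} = 0 := by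
  classical
  have h1 : ∀ z : X → Bool, ∃ E : Finset X, z ∈ Q →
      P S {ω | ZZ S (kill (ns s) ω) ∈ cyl E z} = 0 := by
    intro z
    by_cases hz : z ∈ Q
    · have := hd z hz
      simp only [K, mem_ofPred_eq, not_forall, not_exists, not_lt, nonpos_iff_eq_zero] at this
      obtain ⟨E, hE⟩ := this
      exact ⟨E, fun _ => hE s⟩
    · exact ⟨∅, fun h => absurd h hz⟩
  choose E hE using h1
  obtain ⟨t, ht1, ht2⟩ := hQ.elim_nhds_subcover (fun z => cyl (E z) z)
    (fun z _ => (isOpen_cyl _ _).mem_nhds (mem_cyl _ _))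
  refine measure_mono_null (t := ⋃ z ∈ t, {ω | ZZ S (kill (ns s) ω) ∈ cyl (E z) z}) ?_ ?_
  · intro ω hω
    have := ht2 hω
    simpa using this
  · exact (measure_biUnion_null_iff (I := (t : Set (X → Bool))) t.countable_toSet).2
      fun z hz => hE z (ht1 z hz)

theorem ae_abs_le (s : List (Option (List Bool))) (F : C(X → Bool, ℝ)) (c : ℝ)
    (h : ∀ z ∈ K S, |F z| ≤ c) : ∀ᵐ ω ∂(P S), |F (ZZ S (kill (ns s) ω))| ≤ c := by
  rw [ae_iff]
  refine measure_mono_null (t := ⋃ n : ℕ, {ω | ZZ S (kill (ns s) ω) ∈
    {z | c + 1 / ((n : ℝ) + 1) ≤ |F z|}}) ?_ ?_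
  · intro ω hω
    simp only [mem_ofPred_eq, not_le] at hω
    obtain ⟨n, hn⟩ := exists_nat_one_div_lt (sub_pos.2 hω)
    simp only [mem_iUnion, mem_ofPred_eq]
    exact ⟨n, by linarith⟩
  · rw [measure_iUnion_null_iff]
    intro n
    refine null_of_disjoint S s ?_ ?_
    · have : IsClosed {z : X → Bool | c + 1 / ((n : ℝ) + 1) ≤ |F z|} :=
        isClosed_le continuous_const (F.continuous.abs)
      exact this.isCompact
    · intro z hz hK
      have h1 := h z hK
      have h2 : (0 : ℝ) < 1 / ((n : ℝ) + 1) := by positivity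
      simp only [mem_ofPred_eq] at hz
      linarith

/-- the mean of `F` at the random point modified by `V` -/
noncomputable def N (V : X → Bool) (F : C(X → Bool, ℝ)) : ℝ :=
  ∫ ω, F (ZZ S (kill V ω)) ∂(P S)

theorem measurable_FZ (V : X → Bool) (F : C(X → Bool, ℝ)) :
    Measurable fun ω => F (ZZ S (kill V ω)) :=
  (Pool.Agent.Helper882.Dirac.continuous_measurable_pi X F).comp
    ((measurable_ZZ S).comp (measurable_kill V))

theorem integrable_FZ (V : X → Bool) (F : C(X → Bool, ℝ)) :
    Integrable (fun ω => F (ZZ S (kill V ω))) (P S) :=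
  Integrable.of_bound (measurable_FZ S V F).aestronglyMeasurable ‖F‖
    (Eventually.of_forall fun _ => F.norm_coe_le_norm _)

theorem N_bound (s : List (Option (List Bool))) (F : C(X → Bool, ℝ)) (c : ℝ)
    (h : ∀ z ∈ K S, |F z| ≤ c) : |N S (ns s) F| ≤ c := by
  have h1 := norm_integral_le_of_norm_le_const (μ := P S) (C := c)
    (f := fun ω => F (ZZ S (kill (ns s) ω))) (ae_abs_le S s F c h)
  simpa [N] using h1

theorem N_add (V : X → Bool) (F G : C(X → Bool, ℝ)) : N S V (F + G) = N S V F + N S V G :=
  integral_add (integrable_FZ S V F) (integrable_FZ S V G)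

theorem N_smul (V : X → Bool) (c : ℝ) (F : C(X → Bool, ℝ)) : N S V (c • F) = c * N S V F := by
  have := integral_const_mul (μ := P S) c (fun ω => F (ZZ S (kill V ω)))
  exact this

theorem N_sub (V : X → Bool) (F G : C(X → Bool, ℝ)) : N S V (F - G) = N S V F - N S V G :=
  integral_sub (integrable_FZ S V F) (integrable_FZ S V G)

theorem N_congr (s : List (Option (List Bool))) {F G : C(X → Bool, ℝ)}
    (h : ∀ z ∈ K S, F z = G z) : N S (ns s) F = N S (ns s) G := by
  have := N_bound S s (F - G) 0 (fun z hz => by simp [h z hz])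
  rw [N_sub] at this
  have h2 := abs_nonpos_iff.1 this
  linarith

/-- a continuous extension of a function on `K` -/
noncomputable def ext (f : C(K S, ℝ)) : C(X → Bool, ℝ) :=
  (ContinuousMap.exists_restrict_eq (isClosed_K S) f).choose

theorem ext_apply (f : C(K S, ℝ)) (z : K S) : ext S f z.1 = f z := by
  have := (ContinuousMap.exists_restrict_eq (isClosed_K S) f).choose_spec
  exact DFunLike.congr_fun this z

/-- the functionals of the total family -/
noncomputable def nu (s : List (Option (List Bool))) : StrongDual ℝ C(K S, ℝ) :=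
  LinearMap.mkContinuous
    { toFun := fun f => N S (ns s) (ext S f)
      map_add' := fun f g => by
        rw [← N_add]
        apply N_congr
        intro z hz
        have := ext_apply S (f + g) ⟨z, hz⟩
        simp only [ContinuousMap.add_apply] at this ⊢
        rw [this, ← ext_apply S f ⟨z, hz⟩, ← ext_apply S g ⟨z, hz⟩]
      map_smul' := fun c f => by
        rw [RingHom.id_apply, smul_eq_mul, ← N_smul]
        apply N_congr
        intro z hz
        have := ext_apply S (c • f) ⟨z, hz⟩
        simp only [ContinuousMap.smul_apply] at this ⊢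
        rw [this, ← ext_apply S f ⟨z, hz⟩] } 1 (fun f => by
      rw [one_mul]
      refine N_bound S s _ _ fun z hz => ?_
      rw [ext_apply S f ⟨z, hz⟩]
      exact f.norm_coe_le_norm _)

theorem nu_apply (s : List (Option (List Bool))) (f : C(K S, ℝ)) :
    nu S s f = N S (ns s) (ext S f) := rfl

theorem exists_finset (F : C(X → Bool, ℝ)) {ε : ℝ} (hε : 0 < ε) :
    ∃ E : Finset X, ∀ z z' : X → Bool, (∀ x ∈ E, z x = z' x) → |F z - F z'| < ε := by
  classical
  have h1 : ∀ z : X → Bool, ∃ E : Finset X, ∀ z' ∈ cyl E z, |F z' - F z| < ε / 2 := by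
    intro z
    have h2 : {z' | |F z' - F z| < ε / 2} ∈ 𝓝 z := by
      have := F.continuous.continuousAt (x := z) |>.tendsto
      rw [Metric.tendsto_nhds] at this
      exact this (ε / 2) (by positivity)
    obtain ⟨O, hO1, hO2, hO3⟩ := mem_nhds_iff.1 h2
    obtain ⟨I, u, h3, h4⟩ := isOpen_pi_iff.1 hO2 z hO3
    refine ⟨I, fun z' hz' => hO1 (h4 fun x hx => ?_)⟩
    rw [hz' x hx]
    exact (h3 x hx).2
  choose E hE using h1
  obtain ⟨t, -, ht⟩ := isCompact_univ.elim_nhds_subcover (fun z => cyl (E z) z)
    (fun z _ => (isOpen_cyl _ _).mem_nhds (mem_cyl _ _))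
  refine ⟨t.biUnion E, fun z z' h => ?_⟩
  obtain ⟨w, hw, hz⟩ := mem_iUnion₂.1 (ht (mem_univ z))
  have hz' : z' ∈ cyl (E w) w := fun x hx => by
    rw [← h x (Finset.mem_biUnion.2 ⟨w, hw, hx⟩)]
    exact hz x hx
  have e1 := hE w z hz
  have e2 := hE w z' hz'
  rw [abs_lt] at e1 e2 ⊢
  constructor <;> linarith

theorem continuousOn_N (F : C(X → Bool, ℝ)) (k : ℕ) :
    ContinuousOn (fun V => N S V F) (VV k) := by
  classical
  intro V0 hV0
  show Tendsto (fun V => N S V F) (𝓝[VV k] V0) (𝓝 (N S V0 F))
  rw [Metric.tendsto_nhds]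
  intro ε hε
  obtain ⟨E, hE⟩ := exists_finset F (half_pos hε)
  set D : (X → Bool) → Set (X → Bool) := fun V =>
    ⋃ x ∈ E, {ω | Z S x (kill V ω) ≠ Z S x (kill V0 ω)} with hD
  have hDm : ∀ V, MeasurableSet (D V) := by
    intro V
    refine MeasurableSet.biUnion E.countable_toSet fun x _ => ?_
    exact (measurableSet_eq_fun ((measurable_Z S x).comp (measurable_kill V))
      ((measurable_Z S x).comp (measurable_kill V0))).compl
  have h1 : Tendsto (fun V => (P S).real (D V)) (𝓝[VV k] V0) (𝓝 0) := by
    have h2 : Tendsto (fun V => ∑ x ∈ E,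
        (P S).real {ω | Z S x (kill V ω) ≠ Z S x (kill V0 ω)}) (𝓝[VV k] V0) (𝓝 0) := by
      have := tendsto_finsetSum E (fun x _ => Cv_Z S x k V0 hV0)
      simpa using this
    exact squeeze_zero (fun V => measureReal_nonneg)
      (fun V => measureReal_biUnion_finset_le _ _) h2
  have h3 : Tendsto (fun V => 2 * ‖F‖ * (P S).real (D V)) (𝓝[VV k] V0) (𝓝 0) := by
    have := h1.const_mul (2 * ‖F‖)
    simpa using this
  filter_upwards [(Metric.tendsto_nhds.1 h3) (ε / 2) (by positivity)] with V hV
  rw [Real.dist_eq, sub_zero, abs_of_nonneg (by positivity)] at hV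
  rw [Real.dist_eq]
  have h4 : N S V F - N S V0 F = ∫ ω, (F (ZZ S (kill V ω)) - F (ZZ S (kill V0 ω))) ∂(P S) :=
    (integral_sub (integrable_FZ S V F) (integrable_FZ S V0 F)).symm
  rw [h4]
  have h5 : ∀ ω, |F (ZZ S (kill V ω)) - F (ZZ S (kill V0 ω))| ≤
      ε / 2 + 2 * ‖F‖ * (D V).indicator (fun _ => (1 : ℝ)) ω := by
    intro ω
    by_cases hω : ω ∈ D V
    · rw [indicator_of_mem hω]
      have e1 := F.norm_coe_le_norm (ZZ S (kill V ω))
      have e2 := F.norm_coe_le_norm (ZZ S (kill V0 ω))
      rw [Real.norm_eq_abs] at e1 e2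
      have e3 := abs_sub (F (ZZ S (kill V ω))) (F (ZZ S (kill V0 ω)))
      linarith
    · rw [indicator_of_notMem hω]
      simp only [hD, mem_iUnion, mem_ofPred_eq, not_exists, not_not] at hω
      have := hE (ZZ S (kill V ω)) (ZZ S (kill V0 ω)) (fun x hx => hω x hx)
      linarith
  have h6 : Integrable (fun ω => ε / 2 + 2 * ‖F‖ * (D V).indicator (fun _ => (1 : ℝ)) ω) (P S) :=
    (integrable_const _).add (((integrable_const (1 : ℝ)).indicator (hDm V)).const_mul _)
  have h7 : ∫ ω, (ε / 2 + 2 * ‖F‖ * (D V).indicator (fun _ => (1 : ℝ)) ω) ∂(P S) =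
      ε / 2 + 2 * ‖F‖ * (P S).real (D V) := by
    rw [integral_add (integrable_const _)
      (((integrable_const (1 : ℝ)).indicator (hDm V)).const_mul _), integral_const_mul,
      integral_indicator_const (1 : ℝ) (hDm V)]
    simp
  calc |∫ ω, (F (ZZ S (kill V ω)) - F (ZZ S (kill V0 ω))) ∂(P S)|
      ≤ ∫ ω, |F (ZZ S (kill V ω)) - F (ZZ S (kill V0 ω))| ∂(P S) := abs_integral_le_integral_abs
    _ ≤ ∫ ω, (ε / 2 + 2 * ‖F‖ * (D V).indicator (fun _ => (1 : ℝ)) ω) ∂(P S) :=
        integral_mono_of_nonneg (Eventually.of_forall fun ω => abs_nonneg _) h6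
          (Eventually.of_forall h5)
    _ = ε / 2 + 2 * ‖F‖ * (P S).real (D V) := h7
    _ < ε := by linarith

theorem integral_resample (x : X) {g : (X → Bool) → ℝ} (hg : Measurable g) {C : ℝ}
    (hb : ∀ ω, |g ω| ≤ C) :
    ∫ ω, g ω ∂(P S) = p S x * ∫ ω, g (upd x true ω) ∂(P S) +
      q S x * ∫ ω, g (upd x false ω) ∂(P S) := by
  have hint : ∀ b : Bool, Integrable g ((P S).map (upd x b)) := by
    intro b
    have : IsProbabilityMeasure ((P S).map (upd x b)) :=
      Measure.isProbabilityMeasure_map (measurable_upd x b).aemeasurable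
    exact Integrable.of_bound hg.aestronglyMeasurable C (Eventually.of_forall hb)
  conv_lhs => rw [resample S x]
  rw [integral_add_measure ((hint true).smul_measure ENNReal.coe_ne_top)
    ((hint false).smul_measure ENNReal.coe_ne_top), integral_smul_measure, integral_smul_measure,
    integral_map (measurable_upd _ _).aemeasurable hg.aestronglyMeasurable,
    integral_map (measurable_upd _ _).aemeasurable hg.aestronglyMeasurable]
  rfl

theorem measurableSet_zero (F : Finset X) :
    MeasurableSet {ω : X → Bool | ∀ x ∈ F, ω x = false} := by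
  have : {ω : X → Bool | ∀ x ∈ F, ω x = false} = ⋂ x ∈ F, {ω | ω x = false} := by
    ext ω; simp
  rw [this]
  exact MeasurableSet.biInter F.countable_toSet fun x _ =>
    measurableSet_eq_fun (measurable_pi_apply x) measurable_const

open Classical in
theorem integral_zero_coins (F : Finset X) : ∀ {g : (X → Bool) → ℝ} (_ : Measurable g) {C : ℝ}
    (_ : ∀ ω, |g ω| ≤ C),
    ∫ ω, (if ∀ x ∈ F, ω x = false then g ω else 0) ∂(P S) =
      (∏ x ∈ F, (q S x : ℝ)) * ∫ ω, g (kill (fin F) ω) ∂(P S) := by
  induction F using Finset.induction_on with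
  | empty => intro g hg C hb; simp [kill_fin_empty]
  | insert x F hx ih =>
    intro g hg C hb
    have hm : Measurable fun ω : X → Bool => if ∀ y ∈ insert x F, ω y = false then g ω else 0 :=
      Measurable.ite (measurableSet_zero (insert x F)) hg measurable_const
    have hb' : ∀ ω : X → Bool, |if ∀ y ∈ insert x F, ω y = false then g ω else 0| ≤ C := by
      intro ω
      split_ifs
      · exact hb ω
      · rw [abs_zero]; exact (abs_nonneg _).trans (hb ω)
    rw [integral_resample S x hm hb']
    have h1 : ∀ ω : X → Bool, (if ∀ y ∈ insert x F, upd x true ω y = false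
        then g (upd x true ω) else 0) = 0 := by
      intro ω
      rw [if_neg]
      intro h
      have := h x (Finset.mem_insert_self x F)
      rw [upd_same] at this
      exact absurd this (by simp)
    have h2 : ∀ ω : X → Bool, (if ∀ y ∈ insert x F, upd x false ω y = false
        then g (upd x false ω) else 0) =
        (if ∀ y ∈ F, ω y = false then (fun ω => g (upd x false ω)) ω else 0) := by
      intro ω
      have : (∀ y ∈ insert x F, upd x false ω y = false) ↔ ∀ y ∈ F, ω y = false := by
        constructor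
        · intro h y hy
          have := h y (Finset.mem_insert_of_mem hy)
          rwa [upd_ne x false ω (fun h => hx (h ▸ hy))] at this
        · intro h y hy
          rcases Finset.mem_insert.1 hy with rfl | hy
          · exact upd_same _ _ _
          · rw [upd_ne x false ω (fun h => hx (h ▸ hy))]
            exact h y hy
      simp only [this]
    simp only [h1, h2]
    rw [ih (g := fun ω => g (upd x false ω)) (hg.comp (measurable_upd x false)) (fun ω => hb _),
      integral_zero, mul_zero, zero_add,
      Finset.prod_insert hx, mul_assoc]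
    simp only [kill_fin_insert]

/-- a function whose means under all killings of finitely many coins vanish is null -/
theorem ae_zero_of_kill {g : (X → Bool) → ℝ} (hg : Measurable g) {C : ℝ} (hb : ∀ ω, |g ω| ≤ C)
    (h : ∀ F : Finset X, ∫ ω, g (kill (fin F) ω) ∂(P S) = 0) : g =ᵐ[P S] 0 := by
  classical
  have hint : Integrable g (P S) :=
    Integrable.of_bound hg.aestronglyMeasurable C (Eventually.of_forall hb)
  have h0 : ∀ F : Finset X, ∫ ω in {ω : X → Bool | ∀ x ∈ F, ω x = false}, g ω ∂(P S) = 0 := by
    intro F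
    rw [← integral_indicator (measurableSet_zero F)]
    have := integral_zero_coins S F hg hb
    rw [h F, mul_zero] at this
    rw [← this]
    congr 1
    funext ω
    simp only [indicator_apply, mem_ofPred_eq]
  have huniv : ∫ ω, g ω ∂(P S) = 0 := by
    have := h0 ∅
    simpa using this
  have hgen : (MeasurableSpace.pi : MeasurableSpace (X → Bool)) = MeasurableSpace.generateFrom
      {A | ∃ F : Finset X, A = {ω : X → Bool | ∀ x ∈ F, ω x = false}} := by
    apply le_antisymm
    · refine iSup_le fun x => ?_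
      rw [MeasurableSpace.comap_le_iff_le_map]
      have h1 : @Measurable _ _ (MeasurableSpace.generateFrom
        {A | ∃ F : Finset X, A = {ω : X → Bool | ∀ x ∈ F, ω x = false}}) _
        (fun ω : X → Bool => ω x) := by
        apply @measurable_to_bool _ (MeasurableSpace.generateFrom
          {A | ∃ F : Finset X, A = {ω : X → Bool | ∀ x ∈ F, ω x = false}})
        have h2 : (fun ω : X → Bool => ω x) ⁻¹' {true} =
            {ω : X → Bool | ∀ y ∈ ({x} : Finset X), ω y = false}ᶜ := by
          ext ω
          simp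
        have h3 : MeasurableSet[MeasurableSpace.generateFrom
            {A | ∃ F : Finset X, A = {ω : X → Bool | ∀ x ∈ F, ω x = false}}]
            {ω : X → Bool | ∀ y ∈ ({x} : Finset X), ω y = false} :=
          MeasurableSpace.measurableSet_generateFrom ⟨{x}, rfl⟩
        rw [h2]
        exact h3.compl
      exact fun s hs => h1 hs
    · apply MeasurableSpace.generateFrom_le
      rintro A ⟨F, rfl⟩
      exact measurableSet_zero F
  have hpi : IsPiSystem {A | ∃ F : Finset X, A = {ω : X → Bool | ∀ x ∈ F, ω x = false}} := by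
    rintro _ ⟨F, rfl⟩ _ ⟨G, rfl⟩ -
    refine ⟨F ∪ G, ?_⟩
    ext ω
    simp only [mem_inter_iff, mem_ofPred_eq, Finset.mem_union]
    exact ⟨fun h x hx => hx.elim (h.1 x) (h.2 x), fun h => ⟨fun x hx => h x (Or.inl hx),
      fun x hx => h x (Or.inr hx)⟩⟩
  have hall : ∀ A : Set (X → Bool), MeasurableSet A → ∫ ω in A, g ω ∂(P S) = 0 := by
    intro A hA
    induction A, hA using MeasurableSpace.induction_on_inter hgen hpi with
    | empty => simp
    | basic A hA => obtain ⟨F, rfl⟩ := hA; exact h0 F
    | compl A hA ih =>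
      have := integral_add_compl hA hint
      linarith
    | iUnion f hd hf ih =>
      rw [integral_iUnion hf hd hint.integrableOn]
      simp [ih]
  exact hint.ae_eq_zero_of_forall_setIntegral_eq_zero fun A hA _ => hall A hA

theorem nu_total (f : C(K S, ℝ)) (h : ∀ s, nu S s f = 0) : f = 0 := by
  classical
  set F := ext S f with hF
  have h1 : ∀ k, ∀ V ∈ VV k, N S V F = 0 := by
    intro k V hV
    have hc := (continuousOn_N S F k) V hV
    have hcl := VV_subset_closure k hV
    have hsub : {V | ∃ s : List (Option (List Bool)), s.length = k ∧ ns s = V} ⊆ VV k := by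
      rintro _ ⟨s, rfl, rfl⟩
      exact ns_mem s
    have hc' : Tendsto (fun V => N S V F)
        (𝓝[{V | ∃ s : List (Option (List Bool)), s.length = k ∧ ns s = V}] V)
        (𝓝 (N S V F)) := hc.mono_left (nhdsWithin_mono _ hsub)
    have hz : Tendsto (fun V => N S V F)
        (𝓝[{V | ∃ s : List (Option (List Bool)), s.length = k ∧ ns s = V}] V) (𝓝 0) := by
      refine tendsto_const_nhds.congr' ?_
      filter_upwards [self_mem_nhdsWithin] with W hW
      obtain ⟨s, -, rfl⟩ := hW
      exact (h s).symm
    have : (𝓝[{V | ∃ s : List (Option (List Bool)), s.length = k ∧ ns s = V}] V).NeBot :=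
      mem_closure_iff_nhdsWithin_neBot.1 hcl
    exact tendsto_nhds_unique hc' hz
  have h2 : ∀ s, (fun ω => F (ZZ S (kill (ns s) ω))) =ᵐ[P S] 0 := by
    intro s
    refine ae_zero_of_kill S (measurable_FZ S (ns s) F) (C := ‖F‖)
      (fun ω => F.norm_coe_le_norm _) fun G => ?_
    obtain ⟨k, hk⟩ := vor_fin_mem s G
    have := h1 k _ hk
    simp only [N, kill_vor] at this
    exact this
  ext z
  by_contra hne
  have hFz : F z.1 ≠ 0 := by rw [hF, ext_apply]; exact hne
  obtain ⟨E, hE⟩ := exists_finset F (abs_pos.2 hFz)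
  obtain ⟨s, hs⟩ := z.2 E
  have h3 : P S {ω | ZZ S (kill (ns s) ω) ∈ cyl E z.1} = 0 := by
    refine measure_mono_null ?_ (ae_iff.1 (h2 s))
    intro ω hω h4
    have h5 := hE _ _ hω
    simp only [Pi.zero_apply] at h4
    rw [h4, zero_sub, abs_neg] at h5
    exact lt_irrefl _ h5
  exact hs.ne' h3

theorem separable_dual : SeparableSpace (WeakDual ℝ C(K S, ℝ)) :=
  separable_of_total (nu S) (nu_total S)

end Pool.Agent.J6H45.WB
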