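import Pool.Agent.J6H45.WB.D

/-!
# Good closed sets which avoid given null sets
-/

set_option autoImplicit false

open MeasureTheory Set Filter Topology
open scoped NNReal ENNReal

namespace Pool.Agent.J6H45.WB

variable (S : Set (ℕ → Bool)) (ys : ℕ → X)

/-- the values at the trees `ys i` -/
noncomputable def zy (V : X → Bool) (ω : X → Bool) : ℕ → Bool := fun i => Z S (ys i) (kill V ω)

theorem measurable_zy (V : X → Bool) : Measurable (zy S ys V) :=
  measurable_pi_iff.2 fun i => (measurable_Z S (ys i)).comp (measurable_kill V)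

theorem measurableSet_seg (V : X → Bool) (j : ℕ) (A : Set (List Bool)) :
    MeasurableSet {ω | seg (zy S ys V ω) j ∈ A} :=
  measurable_seg (F := fun i ω => Z S (ys i) (kill V ω))
    (fun i => (measurable_Z S (ys i)).comp (measurable_kill V)) j A

theorem zy_vor (V W ω : X → Bool) : zy S ys (vor V W) ω = zy S ys V (kill W ω) := by
  funext i
  simp only [zy, kill_vor]

theorem null_all {Q : Set (ℕ → Bool)} (hQ : MeasurableSet Q)
    (h : ∀ s, P S {ω | zy S ys (ns s) ω ∈ Q} = 0) (k : ℕ) :
    ∀ V ∈ VV k, P S {ω | zy S ys V ω ∈ Q} = 0 := by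
  intro V hV
  obtain ⟨s, F, rfl⟩ := VV_decomp k V hV
  have h1 := null_kill_fin S F (measurable_zy S ys (ns s) hQ) (h s)
  convert h1 using 2
  ext ω
  rw [mem_ofPred_eq, zy_vor, mem_preimage, mem_preimage]

theorem continuousOn_seg (j k : ℕ) (A : Set (List Bool)) :
    ContinuousOn (fun V => (P S).real {ω | seg (zy S ys V ω) j ∈ A}) (VV k) := by
  intro V0 hV0
  show Tendsto (fun V => (P S).real {ω | seg (zy S ys V ω) j ∈ A}) (𝓝[VV k] V0)
    (𝓝 ((P S).real {ω | seg (zy S ys V0 ω) j ∈ A}))
  have h1 := tendsto_seg (fun i => Cv_Z S (ys i)) j k hV0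
  rw [tendsto_iff_dist_tendsto_zero]
  refine squeeze_zero (fun V => dist_nonneg) (fun V => ?_) h1
  rw [Real.dist_eq]
  refine (abs_measureReal_sub_le_measureReal_symmDiff' ?_ ?_ ?_ ?_).trans
    (measureReal_mono ?_ (measure_ne_top _ _))
  · exact (measurableSet_seg S ys V j A).nullMeasurableSet
  · exact (measurableSet_seg S ys V0 j A).nullMeasurableSet
  · exact measure_ne_top _ _
  · exact measure_ne_top _ _
  · intro ω hω hcon
    have hcon' : seg (zy S ys V ω) j = seg (zy S ys V0 ω) j := hcon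
    rcases hω with ⟨h1, h2⟩ | ⟨h1, h2⟩
    · simp only [mem_ofPred_eq] at h1 h2
      rw [hcon'] at h1
      exact h2 h1
    · simp only [mem_ofPred_eq] at h1 h2
      rw [hcon'] at h2
      exact h2 h1

theorem VV_mono_succ (k : ℕ) : VV k ⊆ VV (k + 1) := by
  intro V hV
  refine ⟨nd none, nd_mem none, V, hV, ?_⟩
  funext x
  simp [vor, nd, zeroV]

theorem VV_mono {k l : ℕ} (h : k ≤ l) : VV k ⊆ VV l := by
  induction h with
  | refl => exact subset_rfl
  | step _ ih => exact ih.trans (VV_mono_succ _)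

/-- uniform smallness of neighbourhoods of a null closed set -/
theorem exists_level {L : Set (ℕ → Bool)} (hL : IsClosed L)
    (h : ∀ s, P S {ω | zy S ys (ns s) ω ∈ L} = 0) (k : ℕ) {ε : ℝ≥0∞} (hε : 0 < ε) :
    ∃ j, ∀ V ∈ VV k, P S {ω | seg (zy S ys V ω) j ∈ (fun y => seg y j) '' L} ≤ ε := by
  have hanti : ∀ V ∈ VV k, Antitone fun j =>
      (P S).real {ω | seg (zy S ys V ω) j ∈ (fun y => seg y j) '' L} := by
    intro V _
    refine antitone_nat_of_succ_le fun j => measureReal_mono ?_ (measure_ne_top _ _)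
    rintro ω ⟨y, hy, h1⟩
    refine ⟨y, hy, ?_⟩
    simp only [seg_eq_iff] at h1 ⊢
    exact fun i hi => h1 i (by omega)
  have hlim : ∀ V ∈ VV k, Tendsto (fun j =>
      (P S).real {ω | seg (zy S ys V ω) j ∈ (fun y => seg y j) '' L}) atTop (𝓝 0) := by
    intro V hV
    have h1 : {ω | zy S ys V ω ∈ L} =
        ⋂ j, {ω | seg (zy S ys V ω) j ∈ (fun y => seg y j) '' L} := by
      ext ω
      simp only [mem_ofPred_eq, mem_iInter]
      constructor
      · intro h j
        exact ⟨_, h, rfl⟩
      · intro h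
        rw [← hL.closure_eq, mem_closure_iff]
        intro O hO hω
        obtain ⟨I, u, h2, h3⟩ := isOpen_pi_iff.1 hO _ hω
        obtain ⟨y, hy, h4⟩ := h (I.sup id + 1)
        refine ⟨y, h3 fun i hi => ?_, hy⟩
        simp only [seg_eq_iff] at h4
        rw [h4 i (Nat.lt_succ_of_le (Finset.le_sup (f := id) hi))]
        exact (h2 i hi).2
    have h2 := tendsto_measure_iInter_atTop (μ := P S)
      (s := fun j => {ω | seg (zy S ys V ω) j ∈ (fun y => seg y j) '' L})
      (fun j => (measurableSet_seg S ys V j _).nullMeasurableSet)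
      (by
        intro j j' hjj
        rintro ω ⟨y, hy, h1⟩
        refine ⟨y, hy, ?_⟩
        simp only [seg_eq_iff] at h1 ⊢
        exact fun i hi => h1 i (by omega))
      ⟨0, measure_ne_top _ _⟩
    rw [← h1, null_all S ys hL.measurableSet h k V hV] at h2
    have h3 := (ENNReal.tendsto_toReal ENNReal.zero_ne_top).comp h2
    exact h3
  have hunif := Antitone.tendstoUniformlyOn_of_forall_tendsto (isCompact_VV k)
    (fun j => continuousOn_seg S ys j k _) hanti continuousOn_const hlim
  rw [Metric.tendstoUniformlyOn_iff] at hunif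
  obtain ⟨δ, hδ0, hδ⟩ : ∃ δ : ℝ, 0 < δ ∧ ENNReal.ofReal δ ≤ ε := by
    by_cases he : ε = ⊤
    · exact ⟨1, one_pos, by rw [he]; exact le_top⟩
    · exact ⟨ε.toReal, ENNReal.toReal_pos hε.ne' he, ENNReal.ofReal_toReal_le⟩
  obtain ⟨j, hj⟩ := (hunif δ hδ0).exists
  refine ⟨j, fun V hV => ?_⟩
  have h1 := hj V hV
  rw [dist_comm, Real.dist_eq, sub_zero, abs_of_nonneg measureReal_nonneg] at h1
  refine le_trans ?_ hδ
  rw [← ENNReal.ofReal_toReal (measure_ne_top (P S) _)]
  exact ENNReal.ofReal_le_ofReal h1.le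

/-- There is a good code `T` such that the closed set coded by `T` avoids all the null closed
sets `L n` and has positive probability. -/
theorem exists_good (L : ℕ → Set (ℕ → Bool)) (hL : ∀ n, IsClosed (L n))
    (h : ∀ n s, P S {ω | zy S ys (ns s) ω ∈ L n} = 0) :
    ∃ T : List Bool → Bool, Good S T (fun i => Z S (ys i)) ∧ (∀ n, ∀ y ∈ L n, ¬ inT T y) ∧
      0 < P S {ω | inT T (fun i => Z S (ys i) ω)} := by
  classical
  have h1 : ∀ n, ∃ j, ∀ V ∈ VV n,
      P S {ω | seg (zy S ys V ω) j ∈ (fun y => seg y j) '' L n} ≤ (2⁻¹ : ℝ≥0∞) ^ (n + 2) :=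
    fun n => exists_level S ys (hL n) (h n) n (ENNReal.pow_pos (by simp) _)
  choose j hj using h1
  set W : ℕ → (X → Bool) → Set (X → Bool) := fun n V =>
    {ω | seg (zy S ys V ω) (j n) ∈ (fun y => seg y (j n)) '' L n} with hW
  have hWm : ∀ n V, MeasurableSet (W n V) := fun n V => measurableSet_seg S ys V _ _
  let T : List Bool → Bool := fun l =>
    decide (∀ n, j n ≤ l.length → l.take (j n) ∉ (fun y => seg y (j n)) '' L n)
  have hT : ∀ y, inT T y ↔ ∀ n, seg y (j n) ∉ (fun y => seg y (j n)) '' L n := by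
    intro y
    simp only [inT, T, decide_eq_true_eq, length_seg]
    constructor
    · intro h n
      have := h (j n) n le_rfl
      rwa [take_seg y le_rfl] at this
    · intro h i n hn
      rw [take_seg y hn]
      exact h n
  have hcompl : ∀ V, {ω | inT T (zy S ys V ω)} = (⋃ n, W n V)ᶜ := by
    intro V
    ext ω
    simp only [mem_ofPred_eq, hT, mem_compl_iff, mem_iUnion, not_exists, hW]
  have htail : ∀ I : ℕ, ∀ V ∈ VV I, P S (⋃ n, W (n + I) V) ≤ (2⁻¹ : ℝ≥0∞) ^ (I + 1) := by
    intro I V hV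
    refine (measure_iUnion_le _).trans ?_
    have h2 : ∀ n, P S (W (n + I) V) ≤ (2⁻¹ : ℝ≥0∞) ^ (I + 2) * (2⁻¹ : ℝ≥0∞) ^ n := by
      intro n
      refine (hj (n + I) V (VV_mono (by omega) hV)).trans ?_
      rw [← pow_add]
      exact le_of_eq (by ring_nf)
    refine (ENNReal.tsum_le_tsum h2).trans ?_
    rw [ENNReal.tsum_mul_left, ENNReal.tsum_geometric, ENNReal.one_sub_inv_two, inv_inv, pow_succ,
      mul_assoc, ENNReal.inv_mul_cancel two_ne_zero ENNReal.ofNat_ne_top, mul_one]
  refine ⟨T, ?_, ?_, ?_⟩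
  · -- goodness
    intro k
    show ContinuousOn (fun V => (P S).real {ω | inT T (zy S ys V ω)}) (VV k)
    apply continuousOn_of_uniform_approx_of_continuousOn
    intro u hu
    obtain ⟨ε, hε, hu⟩ := Metric.mem_uniformity_dist.1 hu
    obtain ⟨I, hI⟩ := exists_pow_lt_of_lt_one hε (show (2⁻¹ : ℝ) < 1 by norm_num)
    set I' := max I k with hI'
    set J := (Finset.range I').sup j with hJ
    refine ⟨fun V => (P S).real {ω | seg (zy S ys V ω) J ∈
      {l | ∀ n < I', l.take (j n) ∉ (fun y => seg y (j n)) '' L n}},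
      continuousOn_seg S ys J k _, fun V hV => hu ?_⟩
    have hset : {ω | seg (zy S ys V ω) J ∈
        {l | ∀ n < I', l.take (j n) ∉ (fun y => seg y (j n)) '' L n}} =
        (⋃ n ∈ Finset.range I', W n V)ᶜ := by
      ext ω
      simp only [mem_ofPred_eq, mem_compl_iff, mem_iUnion, Finset.mem_range, exists_prop,
        not_exists, not_and, hW]
      refine forall_congr' fun n => ?_
      constructor
      · intro h hn
        have := h hn
        rwa [take_seg _ (Finset.le_sup (f := j) (Finset.mem_range.2 hn))] at this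
      · intro h hn
        rw [take_seg _ (Finset.le_sup (f := j) (Finset.mem_range.2 hn))]
        exact h hn
    beta_reduce
    rw [hset, hcompl, Real.dist_eq]
    have hm1 : MeasurableSet (⋃ n, W n V)ᶜ := (MeasurableSet.iUnion fun n => hWm n V).compl
    have hm2 : MeasurableSet (⋃ n ∈ Finset.range I', W n V)ᶜ :=
      (Finset.measurableSet_biUnion _ fun n _ => hWm n V).compl
    refine (abs_measureReal_sub_le_measureReal_symmDiff' hm1.nullMeasurableSet
      hm2.nullMeasurableSet (measure_ne_top _ _) (measure_ne_top _ _)).trans_lt ?_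
    have hsub : symmDiff (⋃ n, W n V)ᶜ (⋃ n ∈ Finset.range I', W n V)ᶜ ⊆
        ⋃ n, W (n + I') V := by
      rintro ω (⟨h1, h2⟩ | ⟨h1, h2⟩)
      · exfalso
        apply h2
        intro h3
        obtain ⟨n, -, h4⟩ := mem_iUnion₂.1 h3
        exact h1 (mem_iUnion.2 ⟨n, h4⟩)
      · rw [mem_compl_iff, not_not] at h2
        obtain ⟨n, hn⟩ := mem_iUnion.1 h2
        have hnI : I' ≤ n := by
          by_contra hlt
          exact h1 (mem_iUnion₂.2 ⟨n, Finset.mem_range.2 (by omega), hn⟩)
        exact mem_iUnion.2 ⟨n - I', by rw [Nat.sub_add_cancel hnI]; exact hn⟩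
    have h3 := (measure_mono hsub).trans (htail I' V (VV_mono (le_max_right _ _) hV))
    have h4 : (P S).real (symmDiff (⋃ n, W n V)ᶜ (⋃ n ∈ Finset.range I', W n V)ᶜ) ≤
        (2⁻¹ : ℝ) ^ (I' + 1) := by
      have := ENNReal.toReal_mono (by simp) h3
      simpa [Measure.real] using this
    refine h4.trans_lt (lt_of_le_of_lt ?_ hI)
    exact pow_le_pow_of_le_one (by norm_num) (by norm_num)
      ((le_max_left I k).trans (Nat.le_succ _))
  · intro n y hy hin
    exact (hT y).1 hin n ⟨y, hy, rfl⟩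
  · have h2 : {ω | inT T (fun i => Z S (ys i) ω)} = (⋃ n, W n zeroV)ᶜ := by
      rw [← hcompl zeroV]
      ext ω
      have : zy S ys zeroV ω = fun i => Z S (ys i) ω := by
        funext i
        have : kill zeroV ω = ω := by funext x; simp [kill, zeroV]
        simp only [zy, this]
      rw [mem_ofPred_eq, mem_ofPred_eq, this]
    rw [h2, prob_compl_eq_one_sub (MeasurableSet.iUnion fun n => hWm n zeroV), tsub_pos_iff_lt]
    have h3 := htail 0 zeroV (show zeroV ∈ VV 0 from rfl)
    simp only [add_zero, zero_add, pow_one] at h3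
    exact h3.trans_lt (by rw [ENNReal.inv_lt_one]; exact ENNReal.one_lt_two)

end Pool.Agent.J6H45.WB
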