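import Pool.Agent.J6H45.WB.E
import Pool.Agent.Helper882.Dirac.Decomp

/-!
# Functionals do not see the type of a new tree
-/

set_option autoImplicit false

open MeasureTheory Set Filter Topology
open scoped NNReal ENNReal

namespace Pool.Agent.J6H45.WB

/-- the set depends only on the coordinates in `C` -/
def Dep (C : Set X) (A : Set (X → Bool)) : Prop :=
  ∀ z z' : X → Bool, (∀ x ∈ C, z x = z' x) → (z ∈ A ↔ z' ∈ A)

theorem exists_dep {A : Set (X → Bool)} (hA : MeasurableSet A) :
    ∃ C : Set X, C.Countable ∧ Dep C A := by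
  let m' : MeasurableSpace (X → Bool) :=
    { MeasurableSet' := fun A => ∃ C : Set X, C.Countable ∧ Dep C A
      measurableSet_empty := ⟨∅, countable_empty, fun z z' _ => Iff.rfl⟩
      measurableSet_compl := by
        rintro A ⟨C, hC, h⟩
        exact ⟨C, hC, fun z z' hz => not_congr (h z z' hz)⟩
      measurableSet_iUnion := by
        intro f hf
        choose C hC h using hf
        refine ⟨⋃ i, C i, countable_iUnion hC, fun z z' hz => ?_⟩
        simp only [mem_iUnion]
        exact exists_congr fun i => h i z z' fun x hx => hz x (mem_iUnion.2 ⟨i, hx⟩) }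
  have hle : (MeasurableSpace.pi : MeasurableSpace (X → Bool)) ≤ m' := by
    refine iSup_le fun x => ?_
    rintro _ ⟨t, -, rfl⟩
    refine ⟨{x}, countable_singleton x, fun z z' hz => ?_⟩
    simp only [mem_preimage, hz x rfl]
  exact hle A hA

theorem exists_dep_fun {g : (X → Bool) → ℝ≥0∞} (hg : Measurable g) :
    ∃ C : Set X, C.Countable ∧ ∀ z z' : X → Bool, (∀ x ∈ C, z x = z' x) → g z = g z' := by
  have h1 : ∀ r : ℚ, ∃ C : Set X, C.Countable ∧ Dep C {z | (Real.toNNReal r : ℝ≥0∞) < g z} :=
    fun r => exists_dep (measurableSet_lt measurable_const hg)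
  choose C hC h using h1
  have key : ∀ z z' : X → Bool, (∀ x ∈ ⋃ r, C r, z x = z' x) → g z ≤ g z' := by
    intro z z' hz
    by_contra hlt
    rw [not_le] at hlt
    obtain ⟨r, -, h1, h2⟩ := ENNReal.lt_iff_exists_rat_btwn.1 hlt
    have := (h r z z' fun x hx => hz x (mem_iUnion.2 ⟨r, hx⟩)).1 h2
    exact lt_asymm h1 this
  refine ⟨⋃ r, C r, countable_iUnion hC, fun z z' hz => le_antisymm (key z z' hz)
    (key z' z fun x hx => (hz x hx).symm)⟩

variable (S : Set (ℕ → Bool))

/-- weights -/
noncomputable def w (s : List (Option (List Bool))) : ℝ≥0∞ := (2⁻¹ : ℝ≥0∞) ^ (Encodable.encode s + 1)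

theorem w_ne_zero (s : List (Option (List Bool))) : w s ≠ 0 :=
  (ENNReal.pow_pos (by simp) _).ne'

/-- the mixture of all laws -/
noncomputable def lam0 : Measure (X → Bool) :=
  Measure.sum fun s => w s • (P S).map (fun ω => ZZ S (kill (ns s) ω))

theorem measurable_law (s : List (Option (List Bool))) :
    Measurable fun ω => ZZ S (kill (ns s) ω) :=
  (measurable_ZZ S).comp (measurable_kill _)

instance : IsFiniteMeasure (lam0 S) := by
  constructor
  unfold lam0
  rw [Measure.sum_apply _ MeasurableSet.univ]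
  have h1 : ∀ s : List (Option (List Bool)),
      (w s • (P S).map (fun ω => ZZ S (kill (ns s) ω))) univ = w s := by
    intro s
    rw [Measure.smul_apply, Measure.map_apply (measurable_law S s) MeasurableSet.univ,
      preimage_univ, measure_univ, smul_eq_mul, mul_one]
  simp only [h1]
  have h2 : ∑' s, w s ≤ ∑' n : ℕ, (2⁻¹ : ℝ≥0∞) ^ (n + 1) :=
    ENNReal.tsum_comp_le_tsum_of_injective Encodable.encode_injective
      fun n : ℕ => (2⁻¹ : ℝ≥0∞) ^ (n + 1)
  refine lt_of_le_of_lt h2 ?_
  simp only [pow_succ]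
  rw [ENNReal.tsum_mul_right, ENNReal.tsum_geometric, ENNReal.one_sub_inv_two, inv_inv,
    ENNReal.mul_inv_cancel two_ne_zero ENNReal.ofNat_ne_top]
  exact ENNReal.one_lt_top

theorem lam0_null {A : Set (X → Bool)} (hA : MeasurableSet A) (h : lam0 S A = 0)
    (s : List (Option (List Bool))) : P S {ω | ZZ S (kill (ns s) ω) ∈ A} = 0 := by
  unfold lam0 at h
  rw [Measure.sum_apply _ hA, ENNReal.tsum_eq_zero] at h
  have h1 := h s
  rw [Measure.smul_apply, Measure.map_apply (measurable_law S s) hA, smul_eq_mul,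
    mul_eq_zero] at h1
  exact h1.resolve_left (w_ne_zero s)

/-- the indicator function of `z x = true` on `K` -/
noncomputable def e1 (x : X) : C(K S, ℝ) :=
  ⟨fun z => if z.1 x = true then 1 else 0, by
    have h1 : Continuous fun b : Bool => if b = true then (1 : ℝ) else 0 :=
      continuous_of_discreteTopology
    exact h1.comp ((continuous_apply x).comp continuous_subtype_val)⟩

theorem e1_apply (x : X) (z : K S) : e1 S x z = if z.1 x = true then 1 else 0 := rfl

theorem integral_ind_aux (Y : Type) (mY : MeasurableSpace Y) (ν : Measure Y) (A : Set Y)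
    (hA : MeasurableSet A) : ∫ z, A.indicator (fun _ => (1 : ℝ)) z ∂ν = (ν A).toReal := by
  rw [integral_indicator_const (1 : ℝ) hA]
  simp [Measure.real]

theorem measure_empty_aux (Y : Type) (mY : MeasurableSpace Y) (ν : Measure Y) : ν ∅ = 0 :=
  measure_empty

theorem exists_meas (ψ : C(K S, ℝ) →L[ℝ] ℝ) (hψ : ∀ f : C(K S, ℝ), 0 ≤ f → 0 ≤ ψ f) :
    ∃ μ : Measure (X → Bool), IsFiniteMeasure μ ∧
      (∀ x, ψ (e1 S x) = (μ {z | z x = true}).toReal) ∧
      (∀ A, MeasurableSet A → (∀ z ∈ K S, z ∉ A) → μ A = 0) := by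
  obtain ⟨ν, hν, h⟩ := @Pool.Agent.Helper882.Dirac.riesz_pos_aux (K S) _ _ _ (borel _)
    (@BorelSpace.mk _ _ (borel _) rfl) ψ hψ
  have hval : @Measurable _ _ (borel (K S)) MeasurableSpace.pi
      (Subtype.val : K S → (X → Bool)) := by
    refine @measurable_pi_iff _ _ _ (borel _) _ _ |>.2 fun x => ?_
    have hc : Continuous fun z : K S => z.1 x := (continuous_apply x).comp continuous_subtype_val
    exact @Continuous.measurable _ _ _ (borel _) (@BorelSpace.opensMeasurable _ _ (borel _)
      (@BorelSpace.mk _ _ (borel _) rfl)) _ _ _ _ hc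
  have hmap : ∀ A, MeasurableSet A → (@Measure.map _ _ (borel (K S)) _
      (Subtype.val : K S → (X → Bool)) ν) A = ν (Subtype.val ⁻¹' A) := fun A hA =>
    @Measure.map_apply _ _ (borel (K S)) _ ν _ hval A hA
  refine ⟨@Measure.map _ _ (borel (K S)) _ (Subtype.val : K S → (X → Bool)) ν, ?_, ?_, ?_⟩
  · constructor
    rw [hmap _ MeasurableSet.univ]
    exact @measure_lt_top _ (borel _) ν hν _
  · intro x
    have hA : MeasurableSet {z : X → Bool | z x = true} :=
      measurableSet_eq_fun (measurable_pi_apply x) measurable_const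
    rw [hmap _ hA, h]
    have hA' := hval hA
    have h2 : (fun z : K S => e1 S x z) =
        (Subtype.val ⁻¹' {z : X → Bool | z x = true}).indicator (fun _ => (1 : ℝ)) := by
      funext z
      by_cases hz : z.1 x = true
      · rw [e1_apply, if_pos hz]
        exact (indicator_of_mem (s := Subtype.val ⁻¹' {z : X → Bool | z x = true}) (a := z) hz
          (fun _ => (1 : ℝ))).symm
      · rw [e1_apply, if_neg hz]
        exact (indicator_of_notMem (s := Subtype.val ⁻¹' {z : X → Bool | z x = true}) (a := z) hz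
          (fun _ => (1 : ℝ))).symm
    rw [h2]
    exact integral_ind_aux (K S) (borel _) ν _ hA'
  · intro A hA hK
    rw [hmap A hA]
    have : (Subtype.val : K S → (X → Bool)) ⁻¹' A = ∅ := by
      ext z
      simp only [mem_preimage, mem_empty_iff_false, iff_false]
      exact hK z.1 z.2
    rw [this]
    exact measure_empty_aux (K S) (borel _) ν

end Pool.Agent.J6H45.WB
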