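import Pool.Agent.J6H45.WB.F

/-!
# The main lemma
-/

set_option autoImplicit false

open MeasureTheory Set Filter Topology
open scoped NNReal ENNReal

namespace Pool.Agent.J6H45.WB

variable (S : Set (ℕ → Bool))

theorem K_mk {z : X → Bool} (hz : z ∈ K S) {m : ℕ → Bool} {T : List Bool → Bool} {ys : ℕ → X}
    (h : z (X.mk m T ys) = true) : inT T (fun i => z (ys i)) := by
  classical
  intro j
  obtain ⟨s, hs⟩ := hz (insert (X.mk m T ys) ((Finset.range j).image ys))
  obtain ⟨ω, hω⟩ := nonempty_of_measure_ne_zero hs.ne'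
  have h1 : Z S (X.mk m T ys) (kill (ns s) ω) = true :=
    (hω _ (Finset.mem_insert_self _ _)).trans h
  have h2 := ((Z_mk S m T ys _).1 h1).2.2 j
  have h3 : seg (fun i => z (ys i)) j = seg (fun i => Z S (ys i) (kill (ns s) ω)) j := by
    rw [seg_eq_iff]
    intro i hi
    exact (hω (ys i) (Finset.mem_insert_of_mem
      (Finset.mem_image_of_mem _ (Finset.mem_range.2 hi)))).symm
  rw [h3]
  exact h2

theorem zy_upd (V : X → Bool) {ys : ℕ → X} {x : X} (hx : ∀ i, x ∉ sites (ys i)) (b : Bool)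
    (ω : X → Bool) : zy S ys V (upd x b ω) = zy S ys V ω := by
  funext i
  unfold zy
  cases hV : V x
  · rw [kill_upd_false hV, Z_upd S _ _ _ (hx i)]
  · rw [kill_upd_true hV]

theorem exists_true {m : ℕ → Bool} {T : List Bool → Bool} {ys : ℕ → X}
    (hg : Good S T (fun i => Z S (ys i))) (hp : 0 < P S {ω | inT T (fun i => Z S (ys i) ω)}) :
    ∃ z ∈ K S, z (X.mk m T ys) = true := by
  by_contra hcon
  push Not at hcon
  have hQ : IsCompact {z : X → Bool | z (X.mk m T ys) = true} := by
    have : IsClosed ((fun z : X → Bool => z (X.mk m T ys)) ⁻¹' {true}) :=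
      (isClosed_discrete _).preimage (continuous_apply _)
    exact this.isCompact
  have h1 := null_of_disjoint S [] hQ (fun z hz hK => hcon z hK hz)
  have h2 : ∀ ω : X → Bool, kill (ns []) ω = ω := by
    intro ω; funext x; simp [kill, ns, zeroV]
  simp only [h2, mem_ofPred_eq] at h1
  have hm : MeasurableSet {ω | ZZ S ω (X.mk m T ys) = true} :=
    measurableSet_eq_fun (measurable_Z S _) measurable_const
  rw [measure_resample S (X.mk m T ys) hm] at h1
  have h3 := (add_eq_zero.1 h1).1
  rcases mul_eq_zero.1 h3 with h4 | h4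
  · exact (p_pos S (X.mk m T ys)).ne' (ENNReal.coe_eq_zero.1 h4)
  · apply hp.ne'
    refine measure_mono_null ?_ h4
    intro ω hω
    show Z S (X.mk m T ys) (upd (X.mk m T ys) true ω) = true
    rw [Z_mk]
    refine ⟨upd_same _ _ _, hg, ?_⟩
    have h5 : (fun i => Z S (ys i) (upd (X.mk m T ys) true ω)) = fun i => Z S (ys i) ω := by
      funext i
      exact Z_upd S _ _ _ (mk_notMem_sites m T ys i) ω
    rw [h5]
    exact hω

open Classical in
theorem main {ι : Type} [Countable ι] [Nonempty ι] (μ : ι → Measure (X → Bool))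
    (hfin : ∀ i, IsFiniteMeasure (μ i))
    (hK : ∀ i A, MeasurableSet A → (∀ z ∈ K S, z ∉ A) → μ i A = 0) :
    ∃ (T : List Bool → Bool) (ys : ℕ → X) (a : ι → List (Option (List Bool)) → ℝ≥0∞),
      (∀ i m, μ i {z | z (X.mk m T ys) = true} = p S (X.mk m T ys) *
        ∑' s, (if ns s (X.mk m T ys) = false then w s * a i s else 0)) ∧
      (∀ m, ∃ z ∈ K S, z (X.mk m T ys) = true) := by
  -- Lebesgue decomposition
  have hsing : ∀ i, ∃ N : Set (X → Bool), MeasurableSet N ∧
      (μ i).singularPart (lam0 S) Nᶜ = 0 ∧ lam0 S N = 0 := by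
    intro i
    obtain ⟨s, hs, h1, h2⟩ := Measure.mutuallySingular_singularPart (μ i) (lam0 S)
    exact ⟨sᶜ, hs.compl, by rwa [compl_compl], h2⟩
  choose N hNm hN1 hN2 using hsing
  set g : ι → (X → Bool) → ℝ≥0∞ := fun i => (μ i).rnDeriv (lam0 S) with hg
  have hgm : ∀ i, Measurable (g i) := fun i => Measure.measurable_rnDeriv _ _
  choose C1 hC1 hdep1 using fun i => exists_dep (hNm i)
  choose C2 hC2 hdep2 using fun i => exists_dep_fun (hgm i)
  obtain ⟨ys, hys⟩ : ∃ ys : ℕ → X, insert X.leaf (⋃ i, (C1 i ∪ C2 i)) = range ys :=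
    ((countable_iUnion fun i => (hC1 i).union (hC2 i)).insert X.leaf).exists_eq_range
      (insert_nonempty _ _)
  have hC1' : ∀ i, C1 i ⊆ range ys := fun i x hx => by
    rw [← hys]; exact Or.inr (mem_iUnion.2 ⟨i, Or.inl hx⟩)
  have hC2' : ∀ i, C2 i ⊆ range ys := fun i x hx => by
    rw [← hys]; exact Or.inr (mem_iUnion.2 ⟨i, Or.inr hx⟩)
  let fill : (ℕ → Bool) → X → Bool := fun y x => if h : ∃ i, ys i = x then y h.choose else false
  have hfill : ∀ (z : X → Bool), ∀ x ∈ range ys, fill (fun i => z (ys i)) x = z x := by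
    intro z x hx
    have h : ∃ i, ys i = x := hx
    simp only [fill, dif_pos h]
    rw [h.choose_spec]
  have hfillm : Measurable fill := by
    refine measurable_pi_iff.2 fun x => ?_
    by_cases h : ∃ i, ys i = x
    · simp only [fill, dif_pos h]
      exact measurable_pi_apply _
    · simp only [fill, dif_neg h]
      exact measurable_const
  set R : (X → Bool) → (ℕ → Bool) := fun z i => z (ys i) with hR
  have hRm : Measurable R := measurable_pi_iff.2 fun i => measurable_pi_apply _
  set N' : Set (ℕ → Bool) := fill ⁻¹' (⋃ i, N i) with hN'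
  have hN'm : MeasurableSet N' := hfillm (MeasurableSet.iUnion hNm)
  have hN'' : ∀ z, z ∈ (⋃ i, N i) → R z ∈ N' := by
    intro z hz
    obtain ⟨i, hi⟩ := mem_iUnion.1 hz
    refine mem_iUnion.2 ⟨i, ?_⟩
    exact (hdep1 i z (fill (R z)) fun x hx => (hfill z x (hC1' i hx)).symm).1 hi
  have hN''' : ∀ z, R z ∈ N' → z ∈ ⋃ i, N i := by
    intro z hz
    obtain ⟨i, hi⟩ := mem_iUnion.1 hz
    refine mem_iUnion.2 ⟨i, ?_⟩
    exact (hdep1 i z (fill (R z)) fun x hx => (hfill z x (hC1' i hx)).symm).2 hi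
  have hnull : ∀ s, P S {ω | zy S ys (ns s) ω ∈ N'} = 0 := by
    intro s
    have h1 : lam0 S (⋃ i, N i) = 0 := measure_iUnion_null hN2
    refine measure_mono_null ?_ (lam0_null S (MeasurableSet.iUnion hNm) h1 s)
    intro ω hω
    exact hN''' (ZZ S (kill (ns s) ω)) hω
  -- closed sets inside `N'`
  have hclosed : ∀ q : ι × ℕ, ∃ L : Set (ℕ → Bool), L ⊆ N' ∧ IsClosed L ∧
      ((μ q.1).map R) (N' \ L) < ((q.2 : ℝ≥0∞) + 1)⁻¹ := by
    rintro ⟨i, k⟩
    have := hfin i
    have : IsFiniteMeasure ((μ i).map R) := inferInstance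
    obtain ⟨L, h1, h2, h3⟩ := hN'm.exists_isClosed_sdiff_lt (μ := (μ i).map R)
      (measure_ne_top _ _) (ε := ((k : ℝ≥0∞) + 1)⁻¹) (by simp)
    exact ⟨L, h1, h2, h3⟩
  choose L hL1 hL2 hL3 using hclosed
  obtain ⟨f, hf⟩ := exists_surjective_nat (ι × ℕ)
  obtain ⟨T, hgood, havoid, hpos⟩ := exists_good S ys (fun n => L (f n)) (fun n => hL2 _)
    (fun n s => measure_mono_null (fun ω hω => hL1 (f n) hω) (hnull s))
  have havoid' : ∀ q, ∀ y ∈ L q, ¬ inT T y := by
    intro q y hy
    obtain ⟨n, rfl⟩ := hf q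
    exact havoid n y hy
  set B : Set (X → Bool) := {z | inT T (R z)} with hB
  have hBm : MeasurableSet B :=
    measurableSet_inT (F := fun i (z : X → Bool) => z (ys i)) (fun i => measurable_pi_apply _) T
  refine ⟨T, ys, fun i s => ∫⁻ ω, (if inT T (zy S ys (ns s) ω) then
    g i (ZZ S (kill (ns s) ω)) else 0) ∂(P S), ?_, fun m => exists_true S hgood hpos⟩
  intro i m
  have := hfin i
  set x := X.mk m T ys with hx
  set A : Set (X → Bool) := {z | z x = true} with hA
  have hAm : MeasurableSet A := measurableSet_eq_fun (measurable_pi_apply x) measurable_const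
  -- the singular part vanishes
  have hNB : μ i (N i ∩ B) = 0 := by
    have h1 : ∀ k : ℕ, μ i (N i ∩ B) ≤ ((k : ℝ≥0∞) + 1)⁻¹ := by
      intro k
      refine le_trans ?_ (hL3 (i, k)).le
      rw [Measure.map_apply hRm (hN'm.diff (hL2 _).measurableSet)]
      refine measure_mono ?_
      rintro z ⟨hz1, hz2⟩
      exact ⟨hN'' z (mem_iUnion.2 ⟨i, hz1⟩), fun hz3 => havoid' (i, k) _ hz3 hz2⟩
    by_contra hne
    obtain ⟨n, hn⟩ := ENNReal.exists_inv_nat_lt hne
    have h2 := (h1 n).trans (ENNReal.inv_le_inv.2 (le_self_add : (n : ℝ≥0∞) ≤ n + 1))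
    exact absurd hn (not_lt.2 h2)
  have hAB : μ i (A \ B) = 0 := by
    refine hK i _ (hAm.diff hBm) fun z hz h => h.2 ?_
    exact K_mk S hz h.1
  have hsingA : (μ i).singularPart (lam0 S) A = 0 := by
    have hle := Measure.singularPart_le (μ i) (lam0 S)
    refine measure_mono_null (t := (A \ B) ∪ ((N i)ᶜ ∪ (N i ∩ B))) ?_ ?_
    · intro z hz
      by_cases h1 : z ∈ B
      · by_cases h2 : z ∈ N i
        · exact Or.inr (Or.inr ⟨h2, h1⟩)
        · exact Or.inr (Or.inl h2)
      · exact Or.inl ⟨hz, h1⟩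
    · refine measure_union_null ?_ (measure_union_null (hN1 i) ?_)
      · exact le_antisymm ((hle _).trans hAB.le) bot_le
      · exact le_antisymm ((hle _).trans hNB.le) bot_le
  have h1 : μ i A = ∫⁻ z in A, g i z ∂(lam0 S) := by
    conv_lhs => rw [Measure.haveLebesgueDecomposition_add (μ i) (lam0 S)]
    rw [Measure.add_apply, hsingA, zero_add, withDensity_apply _ hAm]
  rw [h1, ← lintegral_indicator hAm]
  have hm2 : Measurable (A.indicator (g i)) := (hgm i).indicator hAm
  have h2 : ∫⁻ z, A.indicator (g i) z ∂(lam0 S) =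
      ∑' s, w s * ∫⁻ ω, A.indicator (g i) (ZZ S (kill (ns s) ω)) ∂(P S) := by
    unfold lam0
    rw [lintegral_sum_measure]
    refine tsum_congr fun s => ?_
    rw [lintegral_smul_measure, lintegral_map hm2 (measurable_law S s), smul_eq_mul]
  rw [h2, ← ENNReal.tsum_mul_left]
  refine tsum_congr fun s => ?_
  have hxs : ∀ j, x ∉ sites (ys j) := fun j => mk_notMem_sites m T ys j
  by_cases hs : ns s x = false
  · rw [if_pos hs]
    have h3 : ∀ ω, A.indicator (g i) (ZZ S (kill (ns s) ω)) =
        if ω x = true then (if inT T (zy S ys (ns s) ω) then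
          g i (ZZ S (kill (ns s) ω)) else 0) else 0 := by
      intro ω
      have h4 : ZZ S (kill (ns s) ω) ∈ A ↔ ω x = true ∧ inT T (zy S ys (ns s) ω) := by
        show Z S x (kill (ns s) ω) = true ↔ _
        rw [hx, Z_mk, ← hx]
        have h5 : kill (ns s) ω x = ω x := by simp [kill, hs]
        rw [h5]
        exact ⟨fun h => ⟨h.1, h.2.2⟩, fun h => ⟨h.1, hgood, h.2⟩⟩
      rw [indicator_apply]
      simp only [h4]
      by_cases h6 : ω x = true
      · simp [h6]
      · simp [h6]
    simp only [h3]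
    rw [lintegral_coin S x]
    · ring
    · refine Measurable.ite ?_ ((hgm i).comp (measurable_law S s)) measurable_const
      exact measurable_zy S ys (ns s) (measurableSet_inT (F := fun i (y : ℕ → Bool) => y i)
        (fun i => measurable_pi_apply i) T)
    · intro ω b
      rw [zy_upd S (ns s) hxs b ω]
      have h7 : g i (ZZ S (kill (ns s) (upd x b ω))) = g i (ZZ S (kill (ns s) ω)) := by
        apply hdep2 i
        intro y hy
        obtain ⟨j, rfl⟩ := hC2' i hy
        exact congrFun (zy_upd S (ns s) hxs b ω) j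
      rw [h7]
  · rw [if_neg hs]
    rw [Bool.not_eq_false] at hs
    have h3 : ∀ ω, A.indicator (g i) (ZZ S (kill (ns s) ω)) = 0 := by
      intro ω
      refine indicator_of_notMem ?_ _
      intro h4
      have h5 : Z S x (kill (ns s) ω) = true := h4
      rw [hx, Z_mk, ← hx] at h5
      have h6 : kill (ns s) ω x = false := by simp [kill, hs]
      rw [h6] at h5
      exact absurd h5.1 (by simp)
    simp [h3]

end Pool.Agent.J6H45.WB
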