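import Pool.Agent.J6H45.WB.G

/-!
# The supremum norm is not measurable
-/

set_option autoImplicit false

open MeasureTheory Set Filter Topology
open scoped NNReal ENNReal

namespace Pool.Agent.J6H45.WB

section seq

variable {E : Type} [NormedAddCommGroup E] [NormedSpace ℝ E]

/-- a measurable set is determined by a sequence of functionals -/
theorem exists_seq {A : Set E}
    (hA : MeasurableSet[⨆ φ : StrongDual ℝ E, MeasurableSpace.comap φ (borel ℝ)] A) :
    ∃ (φ : ℕ → StrongDual ℝ E) (B : Set (ℕ → ℝ)), MeasurableSet B ∧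
      ∀ f, f ∈ A ↔ (fun n => φ n f) ∈ B := by
  let m' : MeasurableSpace E :=
    { MeasurableSet' := fun A => ∃ (φ : ℕ → StrongDual ℝ E) (B : Set (ℕ → ℝ)), MeasurableSet B ∧
        ∀ f, f ∈ A ↔ (fun n => φ n f) ∈ B
      measurableSet_empty := ⟨0, ∅, MeasurableSet.empty, fun f => Iff.rfl⟩
      measurableSet_compl := by
        rintro A ⟨φ, B, hB, h⟩
        exact ⟨φ, Bᶜ, hB.compl, fun f => not_congr (h f)⟩
      measurableSet_iUnion := by
        intro F hF
        choose φ B hB h using hF
        refine ⟨fun n => φ n.unpair.1 n.unpair.2,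
          ⋃ n, (fun (u : ℕ → ℝ) k => u (Nat.pair n k)) ⁻¹' (B n), ?_, fun f => ?_⟩
        · refine MeasurableSet.iUnion fun n => ?_
          have : Measurable fun (u : ℕ → ℝ) (k : ℕ) => u (Nat.pair n k) :=
            measurable_pi_iff.2 fun k => measurable_pi_apply _
          exact this (hB n)
        · simp only [mem_iUnion, mem_preimage, Nat.unpair_pair]
          exact exists_congr fun n => h n f }
  have hle : (⨆ φ : StrongDual ℝ E, MeasurableSpace.comap φ (borel ℝ)) ≤ m' := by
    refine iSup_le fun φ => ?_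
    rintro _ ⟨t, ht, rfl⟩
    refine ⟨fun _ => φ, (fun u : ℕ → ℝ => u 0) ⁻¹' t, ?_, fun f => Iff.rfl⟩
    have ht' : MeasurableSet t := by rwa [BorelSpace.measurable_eq (α := ℝ)]
    exact (measurable_pi_apply 0) ht'
  exact hle A hA

end seq

variable (S : Set (ℕ → Bool))

/-- the value of the function of `x` -/
noncomputable def v (x : X) : ℝ := (2 * (p S x : ℝ))⁻¹

theorem v_pos (x : X) : 0 < v S x := by
  have : (0 : ℝ) < p S x := by exact_mod_cast p_pos S x
  unfold v
  positivity

/-- the function of `x` -/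
noncomputable def fz (x : X) : C(K S, ℝ) := v S x • e1 S x

theorem norm_fz {x : X} (h : ∃ z ∈ K S, z x = true) : ‖fz S x‖ = v S x := by
  have hv := v_pos S x
  apply le_antisymm
  · rw [ContinuousMap.norm_le _ hv.le]
    intro z
    unfold fz
    rw [ContinuousMap.smul_apply, e1_apply, smul_eq_mul, norm_mul, Real.norm_of_nonneg hv.le]
    split_ifs
    · simp
    · simp [hv.le]
  · obtain ⟨z, hz, h1⟩ := h
    have h2 := (fz S x).norm_coe_le_norm ⟨z, hz⟩
    refine le_trans ?_ h2
    unfold fz
    rw [ContinuousMap.smul_apply, e1_apply, if_pos h1, smul_eq_mul, mul_one,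
      Real.norm_of_nonneg hv.le]

theorem measurable_ns (s : List (Option (List Bool))) (T : List Bool → Bool) (ys : ℕ → X) :
    MeasurableSet {m : ℕ → Bool | ns s (X.mk m T ys) = false} := by
  induction s with
  | nil => simp [ns, zeroV]
  | cons o s ih =>
    have h1 : {m : ℕ → Bool | ns (o :: s) (X.mk m T ys) = false} =
        {m | nd o (X.mk m T ys) = false} ∩ {m | ns s (X.mk m T ys) = false} := by
      ext m
      simp [ns, vor]
    rw [h1]
    refine MeasurableSet.inter ?_ ih
    rcases o with _ | l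
    · simp [nd, zeroV]
    · have h2 : {m : ℕ → Bool | nd (some l) (X.mk m T ys) = false} =
          {m | seg (fun i => e (X.mk m T ys) i) l.length ∈ ({l}ᶜ : Set (List Bool))} := by
        ext m
        show decide (pre (X.mk m T ys) l.length = l) = false ↔
          ¬ (List.range l.length).map (e (X.mk m T ys)) = l
        rw [decide_eq_false_iff_not]
        rfl
      rw [h2]
      exact measurable_seg (F := fun i m => e (X.mk m T ys) i) (fun i => measurable_e T ys i) _ _

open Classical in
theorem not_measurable (hS : ¬ MeasurableSet S) :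
    ¬ Measurable[⨆ φ : StrongDual ℝ C(K S, ℝ), MeasurableSpace.comap φ (borel ℝ), borel ℝ]
      (fun f : C(K S, ℝ) => ‖f‖) := by
  intro hmeas
  have hA : MeasurableSet[⨆ φ : StrongDual ℝ C(K S, ℝ), MeasurableSpace.comap φ (borel ℝ)]
      {f : C(K S, ℝ) | ‖f‖ ≤ 1} := by
    have h1 : MeasurableSet[borel ℝ] (Iic (1 : ℝ)) := by
      rw [← BorelSpace.measurable_eq (α := ℝ)]
      exact measurableSet_Iic
    exact hmeas h1
  obtain ⟨φ, B, hB, hAB⟩ := exists_seq hA
  -- measures
  have h1 : ∀ n, ∃ μ : Bool → Measure (X → Bool), (∀ b, IsFiniteMeasure (μ b)) ∧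
      (∀ x, φ n (e1 S x) = (μ true {z | z x = true}).toReal - (μ false {z | z x = true}).toReal) ∧
      (∀ b A, MeasurableSet A → (∀ z ∈ K S, z ∉ A) → μ b A = 0) := by
    intro n
    obtain ⟨P', Q', hP, hQ, hPQ⟩ := Pool.Agent.Helper882.Dirac.exists_pos_decomp (K S) (φ n)
    obtain ⟨μ, hμ1, hμ2, hμ3⟩ := exists_meas S P' hP
    obtain ⟨ν, hν1, hν2, hν3⟩ := exists_meas S Q' hQ
    refine ⟨fun b => if b = true then μ else ν, ?_, ?_, ?_⟩
    · intro b; cases b
      · simpa using hν1
      · simpa using hμ1
    · intro x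
      rw [hPQ, _root_.sub_apply, hμ2, hν2]
      simp
    · intro b; cases b
      · simpa using hν3
      · simpa using hμ3
  choose μ hμ1 hμ2 hμ3 using h1
  obtain ⟨T, ys, a, ha, htrue⟩ := main S (ι := ℕ × Bool) (fun i => μ i.1 i.2)
    (fun i => hμ1 i.1 i.2) (fun i => hμ3 i.1 i.2)
  let r : ℕ × Bool → (ℕ → Bool) → ℝ := fun i m =>
    (∑' s, (if ns s (X.mk m T ys) = false then w s * a i s else 0)).toReal
  have hr : ∀ i, Measurable (r i) := by
    intro i
    refine Measurable.ennreal_toReal (Measurable.tsum fun s => ?_)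
    exact Measurable.ite (measurable_ns s T ys) measurable_const measurable_const
  let G : (ℕ → Bool) → ℕ → ℝ := fun m n => (1 / 2) * (r (n, true) m - r (n, false) m)
  have hG : Measurable G :=
    measurable_pi_iff.2 fun n => ((hr (n, true)).sub (hr (n, false))).const_mul _
  have hφ : ∀ m n, φ n (fz S (X.mk m T ys)) = G m n := by
    intro m n
    have hp0 : (p S (X.mk m T ys) : ℝ) ≠ 0 := by
      exact_mod_cast (p_pos S (X.mk m T ys)).ne'
    have e1' := ha (n, true) m
    have e2' := ha (n, false) m
    unfold fz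
    rw [map_smul, hμ2 n, smul_eq_mul]
    simp only at e1' e2'
    rw [e1', e2', ENNReal.toReal_mul, ENNReal.toReal_mul, ENNReal.coe_toReal]
    simp only [G, r, v]
    field_simp
  have hset : {m : ℕ → Bool | m ∉ S} = G ⁻¹' B := by
    ext m
    have h3 := hAB (fz S (X.mk m T ys))
    simp only [hφ, mem_ofPred_eq, norm_fz S (htrue m)] at h3
    rw [mem_preimage]
    refine Iff.trans ?_ h3
    rw [mem_ofPred_eq]
    unfold v
    by_cases hm : m ∈ S
    · simp only [p, hm, if_true, not_true_eq_false, false_iff, not_le]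
      norm_num
    · simp only [p, hm, if_false, not_false_eq_true, true_iff]
      norm_num
  have h4 : MeasurableSet {m : ℕ → Bool | m ∉ S} := by rw [hset]; exact hG hB
  have h5 : {m : ℕ → Bool | m ∉ S}ᶜ = S := by
    ext m; simp
  exact hS (h5 ▸ h4.compl)

theorem exists_nonmeasurable : ∃ S : Set (ℕ → Bool), ¬ MeasurableSet S := by
  by_contra hcon
  push Not at hcon
  have h1 : Cardinal.mk {t : Set (ℕ → Bool) | MeasurableSet t} ≤ Cardinal.continuum := by
    obtain ⟨b, hb, heq⟩ := MeasurableSpace.CountablyGenerated.isCountablyGenerated (α := ℕ → Bool)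
    rw [heq]
    exact MeasurableSpace.cardinal_measurableSet_le_continuum
      (hb.le_aleph0.trans Cardinal.aleph0_le_continuum)
  have h2 : {t : Set (ℕ → Bool) | MeasurableSet t} = univ := by
    ext t; simp [hcon t]
  rw [h2, Cardinal.mk_univ, Cardinal.mk_set] at h1
  have h3 : Cardinal.mk (ℕ → Bool) = Cardinal.continuum := by simp
  rw [h3] at h1
  exact absurd (Cardinal.cantor Cardinal.continuum) (not_lt.2 h1)

end Pool.Agent.J6H45.WB
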